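import Pool.Agent.Lib.MP_11d477_gt.Generic

/-! Every vertex of a crooked walk can be unfolded to an endpoint. -/

set_option autoImplicit false

namespace Pool.Agent.Lib.MP_11d477_gt

/-- Approximate nestedness of the ranges of two branches. -/
def Nest (W : Bool → ℕ → ℤ) (T : Bool → ℕ) : Prop :=
  ∀ (ι κ : Bool) (m t0 t1 : ℕ) (q : ℤ), m ≤ T κ → t0 ≤ t1 → t1 ≤ T ι →
    (∀ r, r ≤ m → W κ r ≤ q + 1) → (∀ r, r ≤ t0 → W ι r ≤ q + 1) → q + 3 ≤ W ι t1 →
    ∃ d, t0 ≤ d ∧ d ≤ t1 ∧ W ι d ≤ W κ m + 1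

/-- Unfolding data on initial segments of the two branches. -/
structure Unf (W : Bool → ℕ → ℤ) (a : ℤ) (t : Bool → ℕ) (z : ℤ) (c : ℕ) (β : ℕ → ℤ)
    (φ : Bool → ℕ → ℕ) : Prop where
  φ0 : ∀ ι, φ ι 0 = 0
  φlazy : ∀ ι, Lazy (t ι) (φ ι)
  φle : ∀ ι r, r ≤ t ι → φ ι r ≤ c
  βlazy : ∀ r, r < c → β (r + 1) ≤ β r + 1 ∧ β r ≤ β (r + 1) + 1
  β0 : β 0 = a
  βc : β c = z
  err : ∀ ι r, r ≤ t ι → β (φ ι r) ≤ W ι r + 2 ∧ W ι r ≤ β (φ ι r) + 2

theorem Unf.neg {W : Bool → ℕ → ℤ} {a : ℤ} {t : Bool → ℕ} {z : ℤ} {c : ℕ} {β : ℕ → ℤ}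
    {φ : Bool → ℕ → ℕ} (h : Unf W a t z c β φ) :
    Unf (fun ι r => - W ι r) (-a) t (-z) c (fun r => - β r) φ :=
  ⟨h.φ0, h.φlazy, h.φle, fun r hr => by have := h.βlazy r hr; omega, by rw [h.β0],
    by rw [h.βc], fun ι r hr => by have := h.err ι r hr; omega⟩

theorem Unf.extend {W : Bool → ℕ → ℤ} {a : ℤ} {t t' : Bool → ℕ} {z z' : ℤ} {c : ℕ} {β : ℕ → ℤ}
    {φ : Bool → ℕ → ℕ} (h : Unf W a t z c β φ)
    (hl : ∀ ι r, r < t' ι → W ι (r + 1) ≤ W ι r + 1 ∧ W ι r ≤ W ι (r + 1) + 1)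
    (htip : ∀ ι, t' ι = t ι ∨ (W ι (t ι) = z ∧ φ ι (t ι) = c)) (hz : z' ≤ z)
    (hb : ∀ ι r, t ι < r → r ≤ t' ι → z' - 2 ≤ W ι r ∧ W ι r ≤ z + 2) :
    ∃ c' β' φ', Unf W a t' z' c' β' φ' ∧ ∀ ι, t ι ≤ t' ι → (W ι (t ι) = z ∧ φ ι (t ι) = c) →
      W ι (t' ι) = z' → φ' ι (t' ι) = c' := by
  refine ⟨c + (z - z').toNat, fun r => if r ≤ c then β r else z - (r - c : ℕ),
    fun ι r => if r ≤ t ι then φ ι r else c + (min (z - W ι r) (z - z')).toNat,
    ⟨fun ι => by simp [h.φ0], fun ι r hr => ?_, fun ι r hr => ?_, fun r hr => ?_, by simp [h.β0],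
      ?_, fun ι r hr => ?_⟩, fun ι h1 h2 h3 => ?_⟩
  · have h1 := hl ι r hr
    by_cases c1 : r + 1 ≤ t ι
    · simp only [c1, show r ≤ t ι by omega, if_true]; exact h.φlazy ι r c1
    · by_cases c2 : r ≤ t ι
      · have e : r = t ι := by omega
        have h2 := (htip ι).resolve_left (by omega)
        simp only [c1, c2, if_true, if_false]
        rw [e] at h1 ⊢
        omega
      · simp only [c1, c2, if_false]
        omega
  · have := h.φle ι r
    split_ifs <;> omega
  · have h1 := h.βlazy r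
    have h2 := h.βc
    by_cases c1 : r + 1 ≤ c
    · simp only [c1, show r ≤ c by omega, if_true]; exact h1 c1
    · by_cases c2 : r ≤ c
      · have e : r = c := by omega
        simp only [c1, c2, if_true, if_false]
        rw [e]; omega
      · simp only [c1, c2, if_false]; omega
  · have h2 := h.βc
    by_cases c1 : c + (z - z').toNat ≤ c
    · have e : c + (z - z').toNat = c := by omega
      simp only [e, le_refl, if_true]; omega
    · simp only [c1, if_false]; omega
  · by_cases c1 : r ≤ t ι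
    · simp only [c1, if_true, h.φle ι r c1]; exact h.err ι r c1
    · have h1 := hb ι r (by omega) hr
      have h2 := h.βc
      simp only [c1, if_false]
      by_cases c2 : c + (min (z - W ι r) (z - z')).toNat ≤ c
      · have e : c + (min (z - W ι r) (z - z')).toNat = c := by omega
        simp only [e, le_refl, if_true]; omega
      · simp only [c2, if_false]; omega
  · by_cases c1 : t' ι ≤ t ι
    · have e : t' ι = t ι := by omega
      simp only [e, le_refl, if_true] at h3 ⊢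
      omega
    · simp only [c1, if_false]; omega

theorem Unf.lap {W : Bool → ℕ → ℤ} {T : Bool → ℕ} {a lo : ℤ} {t : Bool → ℕ} {z : ℤ} {c : ℕ}
    {β : ℕ → ℤ} {φ : Bool → ℕ → ℕ} (h : Unf W a t z c β φ)
    (hl : ∀ ι r, r < T ι → W ι (r + 1) ≤ W ι r + 1 ∧ W ι r ≤ W ι (r + 1) + 1)
    (hlo : ∀ ι r, r ≤ T ι → lo ≤ W ι r) (hN : Nest W T) (ht : ∀ ι, t ι ≤ T ι)
    (htip : ∀ ι, t ι = T ι ∨ (W ι (t ι) = z ∧ φ ι (t ι) = c))
    (hup : ∀ ι r, r ≤ t ι → W ι r ≤ z + 1) :
    ∃ t' z' c' β' φ', Unf W a t' z' c' β' φ' ∧ (∀ ι, t' ι ≤ T ι) ∧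
      (∀ ι, t' ι = T ι ∨ (W ι (t' ι) = z' ∧ φ' ι (t' ι) = c')) ∧
      (∀ ι r, r ≤ t' ι → z' - 1 ≤ W ι r) ∧ z' ≤ z ∧
      ∀ ι r, r ≤ T ι → (∀ s, s ≤ r → W ι s ≤ z + 1) → z' - 1 ≤ W ι r := by
  classical
  obtain ⟨p, ⟨κ, m, hm1, hm2, hm3⟩, hmin⟩ := Int.exists_least_of_bdd
    (P := fun p => ∃ κ m, m ≤ T κ ∧ (∀ s, s ≤ m → W κ s ≤ z + 1) ∧ W κ m = p)
    ⟨lo, fun p ⟨κ, m, h1, _, h3⟩ => h3 ▸ hlo κ m h1⟩
    ⟨_, true, 0, Nat.zero_le _, fun s hs => hup true s (by omega), rfl⟩
  have hP : ∀ ι r, r ≤ T ι → (∀ s, s ≤ r → W ι s ≤ z + 1) → p ≤ W ι r :=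
    fun ι r h1 h2 => hmin _ ⟨ι, r, h1, h2, rfl⟩
  have hex : ∀ ι, ∃ d, t ι ≤ d ∧ d ≤ T ι ∧ (d = T ι ∨ W ι d ≤ min (p + 1) z) :=
    fun ι => ⟨T ι, ht ι, le_rfl, Or.inl rfl⟩
  set t' : Bool → ℕ := fun ι => Nat.find (hex ι) with ht'
  have s1 : ∀ ι, t ι ≤ t' ι ∧ t' ι ≤ T ι ∧ (t' ι = T ι ∨ W ι (t' ι) ≤ min (p + 1) z) :=
    fun ι => Nat.find_spec (hex ι)
  have s2 : ∀ ι d, t ι ≤ d → d < t' ι → min (p + 1) z < W ι d := fun ι d h1 h2 => by
    have h3 := Nat.find_min (hex ι) h2
    have h4 := (s1 ι).2.1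
    by_contra hc
    exact h3 ⟨h1, by omega, Or.inr (by omega)⟩
  have s3 : ∀ ι r, r ≤ t' ι → min (p + 1) z - 1 ≤ W ι r := fun ι r hr => by
    by_cases c1 : r ≤ t ι
    · have := hP ι r (c1.trans (ht ι)) fun s hs => hup ι s (by omega)
      omega
    · obtain ⟨r, rfl⟩ : ∃ r', r = r' + 1 := ⟨r - 1, by omega⟩
      have h1 := s2 ι r (by omega) (by omega)
      have h2 := hl ι r (by have := (s1 ι).2.1; omega)
      omega
  have s4 : ∀ ι r, t ι < r → r ≤ t' ι → W ι r ≤ z + 2 := fun ι r h1 h2 => by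
    by_contra hc
    have h3 := (s1 ι).2.1
    obtain ⟨d, h4, h5, h6⟩ := hN ι κ m (t ι) r z hm1 h1.le (by omega) hm2 (hup ι) (by omega)
    have h7 := (htip ι).resolve_left (by omega)
    have h8 := s2 ι (t ι) le_rfl (by omega)
    by_cases c1 : d < t' ι
    · have := s2 ι d h4 c1
      omega
    · have e : d = r := by omega
      rw [e] at h6
      omega
  obtain ⟨c', β', φ', h1, h2⟩ := h.extend (t' := t') (z' := min (p + 1) z)
    (fun ι r hr => hl ι r (by have := (s1 ι).2.1; omega))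
    (fun ι => by have := s1 ι; rcases htip ι with h | h; exacts [Or.inl (by omega), Or.inr h])
    (min_le_right _ _) fun ι r h1 h2 => ⟨by have := s3 ι r h2; omega, s4 ι r h1 h2⟩
  refine ⟨t', _, c', β', φ', h1, fun ι => (s1 ι).2.1, fun ι => ?_, s3, min_le_right _ _,
    fun ι r h3 h4 => by have := hP ι r h3 h4; omega⟩
  by_cases c1 : t' ι = T ι
  · exact Or.inl c1
  · right
    have h3 := s1 ι
    have h4 := (htip ι).resolve_left (by omega)
    have h5 : W ι (t' ι) = min (p + 1) z := by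
      have h6 := h3.2.2.resolve_left c1
      by_cases c2 : t' ι = t ι
      · rw [c2] at h6 ⊢; omega
      · obtain ⟨r, hr⟩ : ∃ r, t' ι = r + 1 := ⟨t' ι - 1, by omega⟩
        have h7 := s2 ι r (by omega) (by omega)
        have h8 := hl ι r (by omega)
        rw [hr] at h6 ⊢
        omega
    exact ⟨h5, h2 ι h3.1 h4 h5⟩

theorem Unf.finish {W : Bool → ℕ → ℤ} {T : Bool → ℕ} {a lo hi : ℤ}
    (hl : ∀ ι r, r < T ι → W ι (r + 1) ≤ W ι r + 1 ∧ W ι r ≤ W ι (r + 1) + 1)
    (hlo : ∀ ι r, r ≤ T ι → lo ≤ W ι r) (hhi : ∀ ι r, r ≤ T ι → W ι r ≤ hi) (hN : Nest W T)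
    (hN' : Nest (fun ι r => - W ι r) T) (n : ℕ) :
    ∀ {t : Bool → ℕ} {z : ℤ} {c : ℕ} {β : ℕ → ℤ} {φ : Bool → ℕ → ℕ}, Unf W a t z c β φ →
      hi ≤ z + n → (∀ ι, t ι ≤ T ι) → (∀ ι, t ι = T ι ∨ (W ι (t ι) = z ∧ φ ι (t ι) = c)) →
      (∀ ι r, r ≤ t ι → W ι r ≤ z + 1) → ∃ z' c' β' φ', Unf W a T z' c' β' φ' := by
  classical
  induction n with
  | zero =>
    intro t z c β φ h hz ht htip _
    obtain ⟨c', β', φ', h1, -⟩ := h.extend (t' := T) (z' := min lo z) hl
      (fun ι => (htip ι).imp Eq.symm id) (min_le_right _ _) fun ι r _ h2 =>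
        ⟨by have := hlo ι r h2; omega, by have := hhi ι r h2; omega⟩
    exact ⟨_, c', β', φ', h1⟩
  | succ n ih =>
    intro t z c β φ h hz ht htip hup
    by_cases hall : ∀ ι r, r ≤ T ι → W ι r ≤ z + 1
    · obtain ⟨c', β', φ', h1, -⟩ := h.extend (t' := T) (z' := min lo z) hl
        (fun ι => (htip ι).imp Eq.symm id) (min_le_right _ _) fun ι r _ h2 =>
          ⟨by have := hlo ι r h2; omega, by have := hall ι r h2; omega⟩
      exact ⟨_, c', β', φ', h1⟩
    obtain ⟨t1, z1, c1, β1, φ1, a1, a2, a3, a4, a5, a6⟩ := h.lap hl hlo hN ht htip hup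
    obtain ⟨t2, z2, c2, β2, φ2, b1, b2, b3, b4, -, b6⟩ := a1.neg.lap (T := T) (lo := -hi)
      (fun ι r hr => by have := hl ι r hr; omega) (fun ι r hr => by have := hhi ι r hr; omega)
      hN' a2 (fun ι => (a3 ι).imp id fun h => ⟨by rw [h.1], h.2⟩)
      (fun ι r hr => by have := a4 ι r hr; omega)
    have b1' := b1.neg
    simp only [neg_neg] at b1'
    refine ih b1' ?_ b2 (fun ι => (b3 ι).imp id fun h => ⟨by have := h.1; omega, h.2⟩)
      (fun ι r hr => by have := b4 ι r hr; omega)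
    push Not at hall
    obtain ⟨ι, hex⟩ := hall
    have s1 := Nat.find_spec hex
    have s2 := fun r (hr : r < Nat.find hex) => Nat.find_min hex hr
    generalize Nat.find hex = r0 at s1 s2
    have s3 : ∀ r, r < r0 → W ι r ≤ z + 1 := fun r hr => by
      by_contra hc
      exact s2 r hr ⟨by omega, by omega⟩
    have s4 := b6 ι r0 s1.1 fun s hs => by
      by_cases c : s = r0
      · rw [c]; omega
      · have := a6 ι s (by omega) fun s' hs' => s3 s' (by omega)
        omega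
    omega

theorem unfold_branches {W : Bool → ℕ → ℤ} {T : Bool → ℕ} {a lo hi : ℤ} (h0 : ∀ ι, W ι 0 = a)
    (hl : ∀ ι r, r < T ι → W ι (r + 1) ≤ W ι r + 1 ∧ W ι r ≤ W ι (r + 1) + 1)
    (hlo : ∀ ι r, r ≤ T ι → lo ≤ W ι r) (hhi : ∀ ι r, r ≤ T ι → W ι r ≤ hi) (hN : Nest W T)
    (hN' : Nest (fun ι r => - W ι r) T) : ∃ z c β φ, Unf W a T z c β φ := by
  refine Unf.finish hl hlo hhi hN hN' (hi - a).toNat (t := fun _ => 0) (z := a) (c := 0)
    (β := fun _ => a) (φ := fun _ _ => 0) ⟨fun _ => rfl, fun _ r hr => by omega,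
      fun _ _ _ => le_rfl, fun r hr => by omega, rfl, rfl, fun ι r hr => ?_⟩ (by omega)
    (fun _ => Nat.zero_le _) (fun ι => Or.inr ⟨h0 ι, rfl⟩) fun ι r hr => ?_
  · rw [Nat.le_zero.1 hr, h0]; omega
  · rw [Nat.le_zero.1 hr, h0]; omega

/-- Crookedness of a walk. -/
def Crooked (T : ℕ) (g : ℕ → ℤ) : Prop :=
  ∀ m t, m ≤ T → t ≤ T → g m + 2 ≤ g t → ∃ c d, ((m ≤ c ∧ c ≤ d ∧ d ≤ t) ∨ (t ≤ d ∧ d ≤ c ∧ c ≤ m)) ∧
    g t - 1 ≤ g c ∧ g d ≤ g m + 1

theorem Crooked.neg {T : ℕ} {g : ℕ → ℤ} (h : Crooked T g) : Crooked T (fun i => - g i) := by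
  intro m t hm ht hg
  simp only at hg ⊢
  obtain ⟨c, d, h1, h2, h3⟩ := h t m ht hm (by omega)
  exact ⟨d, c, by omega, by omega, by omega⟩

theorem Crooked.nest {T b : ℕ} {g : ℕ → ℤ} (h : Crooked T g) (hb : b ≤ T) :
    Nest (fun ι r => if ι then g (b + r) else g (b - r)) (fun ι => if ι then T - b else b) := by
  intro ι κ m t0 t1 q h1 h2 h3 h4 h5 h6
  cases ι <;> cases κ <;> simp only [Bool.false_eq_true, if_false, if_true] at h1 h3 h4 h5 h6 ⊢
  · by_cases c0 : t0 ≤ m
    · by_cases c1 : m ≤ t1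
      · exact ⟨m, c0, c1, by omega⟩
      · have := h4 t1 (by omega); omega
    · obtain ⟨c, d, a1, a2, a3⟩ := h (b - m) (b - t1) (by omega) (by omega)
        (by have := h4 m le_rfl; omega)
      have a4 : c < b - t0 := by
        by_contra hc
        have := h5 (b - c) (by omega)
        rw [show b - (b - c) = c by omega] at this
        omega
      exact ⟨b - d, by omega, by omega, by rw [show b - (b - d) = d by omega]; exact a3⟩
  · obtain ⟨c, d, a1, a2, a3⟩ := h (b + m) (b - t1) (by omega) (by omega)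
      (by have := h4 m le_rfl; omega)
    have a4 : c < b - t0 := by
      by_contra hc
      by_cases c1 : c ≤ b
      · have := h5 (b - c) (by omega)
        rw [show b - (b - c) = c by omega] at this
        omega
      · have := h4 (c - b) (by omega)
        rw [show b + (c - b) = c by omega] at this
        omega
    exact ⟨b - d, by omega, by omega, by rw [show b - (b - d) = d by omega]; exact a3⟩
  · obtain ⟨c, d, a1, a2, a3⟩ := h (b - m) (b + t1) (by omega) (by omega)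
      (by have := h4 m le_rfl; omega)
    have a4 : b + t0 < c := by
      by_contra hc
      by_cases c1 : c ≤ b
      · have := h4 (b - c) (by omega)
        rw [show b - (b - c) = c by omega] at this
        omega
      · have := h5 (c - b) (by omega)
        rw [show b + (c - b) = c by omega] at this
        omega
    exact ⟨d - b, by omega, by omega, by rw [show b + (d - b) = d by omega]; exact a3⟩
  · by_cases c0 : t0 ≤ m
    · by_cases c1 : m ≤ t1
      · exact ⟨m, c0, c1, by omega⟩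
      · have := h4 t1 (by omega); omega
    · obtain ⟨c, d, a1, a2, a3⟩ := h (b + m) (b + t1) (by omega) (by omega)
        (by have := h4 m le_rfl; omega)
      have a4 : b + t0 < c := by
        by_contra hc
        have := h5 (c - b) (by omega)
        rw [show b + (c - b) = c by omega] at this
        omega
      exact ⟨d - b, by omega, by omega, by rw [show b + (d - b) = d by omega]; exact a3⟩

/-- Unfolding a crooked walk at a vertex `b`. -/
theorem unfold_crooked {T n b : ℕ} {g : ℕ → ℕ} (hg : Lazy T g) (hn : ∀ i, i ≤ T → g i ≤ n)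
    (hc : Crooked T fun i => (g i : ℤ)) (hb : b ≤ T) :
    ∃ (c : ℕ) (φ β : ℕ → ℕ), Epi T c φ ∧ φ b = 0 ∧ Lazy c β ∧ β 0 = g b ∧ (∀ r, β r ≤ n) ∧
      ∀ i, i ≤ T → β (φ i) ≤ g i + 2 ∧ g i ≤ β (φ i) + 2 := by
  have hN := hc.nest hb
  have hN' := hc.neg.nest hb
  obtain ⟨z, c, β, φ, h⟩ := unfold_branches (a := g b) (lo := 0) (hi := n)
    (W := fun ι r => if ι then (g (b + r) : ℤ) else g (b - r))
    (T := fun ι => if ι then T - b else b) (fun ι => by cases ι <;> simp)
    (fun ι r hr => by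
      cases ι <;> simp only [Bool.false_eq_true, if_false, if_true] at hr ⊢
      · have := hg (b - (r + 1)) (by omega)
        rw [show b - (r + 1) + 1 = b - r by omega] at this
        omega
      · have := hg (b + r) (by omega)
        rw [← add_assoc]
        omega)
    (fun ι r _ => by cases ι <;> simp)
    (fun ι r hr => by
      cases ι <;> simp only [Bool.false_eq_true, if_false, if_true] at hr ⊢
      · have := hn (b - r) (by omega); omega
      · have := hn (b + r) (by omega); omega) hN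
    (by
      have e : (fun (ι : Bool) r => -(if ι then (g (b + r) : ℤ) else g (b - r))) =
          fun (ι : Bool) r => if ι then -(g (b + r) : ℤ) else -(g (b - r) : ℤ) := by
        funext ι r; cases ι <;> simp
      rw [e]; exact hN')
  set ψ : ℕ → ℕ := fun i => if b ≤ i then φ true (i - b) else φ false (b - i) with hψ
  have hψl : Lazy T ψ := by
    intro i hi
    by_cases c1 : b ≤ i
    · have := h.φlazy true (i - b) (by simp only [if_true]; omega)
      simp only [hψ, c1, show b ≤ i + 1 by omega, if_true]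
      rw [show i + 1 - b = i - b + 1 by omega]
      exact this
    · have := h.φlazy false (b - (i + 1)) (by simp only [Bool.false_eq_true, if_false]; omega)
      rw [show b - (i + 1) + 1 = b - i by omega] at this
      by_cases c2 : b ≤ i + 1
      · have e1 : i + 1 - b = 0 := by omega
        have e2 : b - (i + 1) = 0 := by omega
        simp only [hψ, c1, c2, if_true, if_false]
        rw [e1, h.φ0]
        rw [e2, h.φ0] at this
        omega
      · simp only [hψ, c1, c2, if_false]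
        omega
  have hψc : ∀ i, i ≤ T → ψ i ≤ c ∧ β (ψ i) ≤ g i + 2 ∧ (g i : ℤ) ≤ β (ψ i) + 2 := by
    intro i hi
    by_cases c1 : b ≤ i
    · have a1 := h.φle true (i - b) (by simp only [if_true]; omega)
      have a2 := h.err true (i - b) (by simp only [if_true]; omega)
      simp only [if_true, show b + (i - b) = i by omega] at a2
      simp only [hψ, c1, if_true]
      exact ⟨a1, a2⟩
    · have a1 := h.φle false (b - i) (by simp only [Bool.false_eq_true, if_false]; omega)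
      have a2 := h.err false (b - i) (by simp only [Bool.false_eq_true, if_false]; omega)
      simp only [Bool.false_eq_true, if_false, show b - (b - i) = i by omega] at a2
      simp only [hψ, c1, if_false]
      exact ⟨a1, a2⟩
  have hψb : ψ b = 0 := by simp [hψ, h.φ0]
  obtain ⟨i0, hi0, hmax⟩ := Finset.exists_max_image (Finset.range (T + 1)) ψ ⟨0, by simp⟩
  rw [Finset.mem_range] at hi0
  refine ⟨ψ i0, ψ, fun r => min (β r).toNat n, epi_of_lazy hψl
    (fun i hi => hmax i (Finset.mem_range.2 (by omega))) hb (b := i0) (by omega) hψb rfl, hψb,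
    fun r hr => ?_, ?_, fun r => min_le_right _ _, fun i hi => ?_⟩
  · have := h.βlazy r (by have := (hψc i0 (by omega)).1; omega)
    simp only
    omega
  · have := hn b hb
    simp only [h.β0]
    omega
  · have := hψc i hi
    have := hn i hi
    simp only
    omega

theorem Gen.crooked_ev (G : Gen) (j : ℕ) : ∀ᶠ d in Filter.atTop,
    Crooked (G.N (j + d)) fun i => (rho G.σ j d i : ℤ) := by
  have key : ∀ uv ∈ Finset.range (G.N j + 1) ×ˢ Finset.range (G.N j + 1), ∀ᶠ d in Filter.atTop,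
      ∀ m t, m ≤ G.N (j + d) → t ≤ G.N (j + d) → rho G.σ j d m = uv.1 → rho G.σ j d t = uv.2 →
        uv.1 + 2 ≤ uv.2 → ∃ c e, ((m ≤ c ∧ c ≤ e ∧ e ≤ t) ∨ (t ≤ e ∧ e ≤ c ∧ c ≤ m)) ∧
          rho G.σ j d c + 1 = uv.2 ∧ rho G.σ j d e = uv.1 + 1 := by
    rintro ⟨u, v⟩ huv
    simp only [Finset.mem_product, Finset.mem_range] at huv
    by_cases c0 : u + 2 ≤ v
    swap
    · exact Filter.Eventually.of_forall fun d m t _ _ _ _ h => absurd h c0
    have hγ : Epi (G.N j + 2 * (v - u - 2)) (G.N j) fun i => if i ≤ v - 1 then i else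
        if i ≤ v - 1 + (v - u - 2) then 2 * (v - 1) - i else i - 2 * (v - u - 2) := by
      refine epi_of_lazy (fun i hi => ?_) (fun i hi => ?_) (a := 0) (Nat.zero_le _) le_rfl
        (by simp) ?_
      · split_ifs <;> omega
      · split_ifs <;> omega
      · split_ifs <;> omega
    filter_upwards [G.gen_ev j _ _ hγ] with d ⟨h, h1, h2⟩ m t hm ht hu hv _
    have a1 : h m = u := by
      have := h2 m hm
      split_ifs at this <;> omega
    have a2 : h t = v + 2 * (v - u - 2) := by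
      have := h2 t ht
      split_ifs at this <;> omega
    rcases le_total m t with hmt | hmt
    · obtain ⟨c, b1, b2, b3⟩ := h1.lazy.ivt_up (v := v - 1) hmt ht (by omega) (by omega)
      obtain ⟨e, b4, b5, b6⟩ := h1.lazy.ivt_up (v := v - 1 + (v - u - 2)) b2 ht (by omega)
        (by omega)
      refine ⟨c, e, Or.inl ⟨b1, b4, b5⟩, ?_, ?_⟩
      · have := h2 c (by omega)
        split_ifs at this <;> omega
      · have := h2 e (by omega)
        split_ifs at this <;> omega
    · obtain ⟨c, b1, b2, b3⟩ := h1.lazy.ivt_down (v := v - 1) hmt hm (by omega) (by omega)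
      obtain ⟨e, b4, b5, b6⟩ := h1.lazy.ivt_down (v := v - 1 + (v - u - 2)) b1 (by omega)
        (by omega) (by omega)
      refine ⟨c, e, Or.inr ⟨b4, b5, b2⟩, ?_, ?_⟩
      · have := h2 c (by omega)
        split_ifs at this <;> omega
      · have := h2 e (by omega)
        split_ifs at this <;> omega
  filter_upwards [(Filter.eventually_all_finset _).2 key] with d hd m t hm ht hg
  simp only at hg
  have h1 := (G.rho_epi j d).le m hm
  have h2 := (G.rho_epi j d).le t ht
  obtain ⟨c, e, h3, h4, h5⟩ := hd (rho G.σ j d m, rho G.σ j d t)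
    (by simp only [Finset.mem_product, Finset.mem_range]; omega) m t hm ht rfl rfl (by omega)
  exact ⟨c, e, h3, by simp only at h4 ⊢; omega, by simp only at h5 ⊢; omega⟩

end Pool.Agent.Lib.MP_11d477_gt
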