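import Pool.Agent.Lib.MP_11d477_gt.Walks

/-! A generic inverse sequence of finite paths. -/

set_option autoImplicit false

namespace Pool.Agent.Lib.MP_11d477_gt

/-- Composite of the halved bonding maps from level `j + d` to level `j`. -/
def rho (σ : ℕ → ℕ → ℕ) (j : ℕ) : ℕ → ℕ → ℕ
  | 0, i => i
  | d + 1, i => rho σ j d (σ (j + d) i / 2)

theorem rho_congr {σ σ' : ℕ → ℕ → ℕ} {j d : ℕ} (h : ∀ k, k < j + d → σ k = σ' k) :
    rho σ j d = rho σ' j d := by
  induction d with
  | zero => funext i; rfl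
  | succ d ih =>
    funext i
    simp only [rho]
    rw [ih fun k hk => h k (by omega), h (j + d) (by omega)]

theorem rho_add (σ : ℕ → ℕ → ℕ) (j d e i : ℕ) :
    rho σ j (d + e) i = rho σ j d (rho σ (j + d) e i) := by
  induction e generalizing i with
  | zero => rfl
  | succ e ih =>
    rw [← add_assoc]
    simp only [rho]
    rw [ih, add_assoc]

/-- A generic sequence. -/
structure Gen where
  N : ℕ → ℕ
  σ : ℕ → ℕ → ℕ
  N0 : N 0 = 8
  epi : ∀ k, Epi (N (k + 1)) (2 * N k) (σ k)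
  gen : ∀ j m γ, Epi m (N j) γ → ∃ d h, Epi (N (j + d)) m h ∧
    ∀ i, i ≤ N (j + d) → γ (h i) = rho σ j d i

theorem step_exists (n nj m : ℕ) (ρ γ : ℕ → ℕ) : ∃ x : ℕ × (ℕ → ℕ), Epi x.1 (2 * n) x.2 ∧
    (Epi n nj ρ → Epi m nj γ → ∃ h, Epi x.1 m h ∧ ∀ i, i ≤ x.1 → γ (h i) = ρ (x.2 i / 2)) := by
  by_cases h : Epi n nj ρ ∧ Epi m nj γ
  · obtain ⟨d, p, q, h1, h2, h3⟩ := amalgam (h.1.comp (epi_half n)) h.2
    exact ⟨(d, p), h1, fun _ _ => ⟨q, h2, fun i hi => (h3 i hi).symm⟩⟩
  · exact ⟨(2 * n, fun i => i), epi_id _, fun h1 h2 => absurd ⟨h1, h2⟩ h⟩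

/-- Sizes read off a history. -/
def Nof (G : ℕ → ℕ × (ℕ → ℕ)) : ℕ → ℕ
  | 0 => 8
  | k + 1 => (G k).1

/-- The task handled at stage `k`. -/
def task (k : ℕ) : ℕ × ℕ × List ℕ := Denumerable.ofNat _ (Nat.unpair k).1

/-- The next bonding map. -/
noncomputable def next (k : ℕ) (G : ℕ → ℕ × (ℕ → ℕ)) : ℕ × (ℕ → ℕ) :=
  (step_exists (Nof G k) (Nof G (task k).1) (task k).2.1
    (rho (fun l => (G l).2) (task k).1 (k - (task k).1)) fun i => (task k).2.2.getD i 0).choose

/-- Histories. -/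
noncomputable def hist : ℕ → ℕ → ℕ × (ℕ → ℕ)
  | 0 => fun _ => (0, fun _ => 0)
  | k + 1 => Function.update (hist k) k (next k (hist k))

/-- The full sequence. -/
noncomputable def full (k : ℕ) : ℕ × (ℕ → ℕ) := next k (hist k)

theorem hist_eq {k j : ℕ} (h : j < k) : hist k j = full j := by
  induction k with
  | zero => omega
  | succ k ih =>
    simp only [hist]
    by_cases c : j = k
    · subst c; simp [full]
    · rw [Function.update_of_ne c]; exact ih (by omega)

theorem Nof_hist {k j : ℕ} (h : j ≤ k) : Nof (hist k) j = Nof full j := by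
  cases j with
  | zero => rfl
  | succ j => simp only [Nof]; rw [hist_eq (by omega)]

theorem full_epi (k : ℕ) : Epi (Nof full (k + 1)) (2 * Nof full k) (full k).2 := by
  have := (step_exists (Nof (hist k) k) (Nof (hist k) (task k).1) (task k).2.1
    (rho (fun l => (hist k l).2) (task k).1 (k - (task k).1))
    fun i => (task k).2.2.getD i 0).choose_spec.1
  rw [← Nof_hist (le_refl k)]
  exact this

theorem rho_epi {N : ℕ → ℕ} {σ : ℕ → ℕ → ℕ} (h : ∀ k, Epi (N (k + 1)) (2 * N k) (σ k)) (j d : ℕ) :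
    Epi (N (j + d)) (N j) (rho σ j d) := by
  induction d with
  | zero => exact epi_id _
  | succ d ih => exact ih.comp ((epi_half _).comp (h (j + d)))

/-- The generic sequence. -/
noncomputable def theGen : Gen where
  N := Nof full
  σ k := (full k).2
  N0 := rfl
  epi := full_epi
  gen j m γ hγ := by
    set L := (List.range (m + 1)).map γ
    have hL : ∀ i, i ≤ m → L.getD i 0 = γ i := fun i hi => by
      simp [L, List.getD, show i < m + 1 by omega]
    set k := Nat.pair (Encodable.encode (j, m, L)) j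
    have hk : j ≤ k := Nat.right_le_pair _ _
    have ht : task k = (j, m, L) := by simp [task, k]
    have := (step_exists (Nof (hist k) k) (Nof (hist k) (task k).1) (task k).2.1
      (rho (fun l => (hist k l).2) (task k).1 (k - (task k).1))
      fun i => (task k).2.2.getD i 0).choose_spec.2
    change _ → _ → ∃ h, Epi (full k).1 _ h ∧ ∀ i, i ≤ (full k).1 → _ = rho _ _ _ ((full k).2 i / 2)
      at this
    rw [ht] at this
    simp only at this
    rw [Nof_hist le_rfl, Nof_hist hk, rho_congr (σ' := fun l => (full l).2)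
      (fun l hl => by rw [hist_eq (by omega)])] at this
    obtain ⟨d, hd⟩ := Nat.exists_eq_add_of_le hk
    clear_value k
    subst hd
    rw [Nat.add_sub_cancel_left] at this
    obtain ⟨h, h1, h2⟩ := this (rho_epi full_epi j d) (hγ.congr hL)
    refine ⟨d + 1, h, h1, fun i hi => ?_⟩
    rw [← hL _ (h1.le i hi), h2 i hi]
    rfl

namespace Gen

variable (G : Gen)

theorem rho_epi (j d : ℕ) : Epi (G.N (j + d)) (G.N j) (rho G.σ j d) :=
  MP_11d477_gt.rho_epi G.epi j d

theorem eight_le (k : ℕ) : 8 ≤ G.N k := by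
  induction k with
  | zero => rw [G.N0]
  | succ k ih =>
    obtain ⟨a, ha, h0⟩ := (G.epi k).surj 0 (Nat.zero_le _)
    obtain ⟨b, hb, h1⟩ := (G.epi k).surj _ le_rfl
    have := (G.epi k).lazy.lip (d := G.N (k + 1)) hb ha (by omega) (by omega)
    omega

theorem gen_ev (j m : ℕ) (γ : ℕ → ℕ) (hγ : Epi m (G.N j) γ) : ∀ᶠ d in Filter.atTop,
    ∃ h, Epi (G.N (j + d)) m h ∧ ∀ i, i ≤ G.N (j + d) → γ (h i) = rho G.σ j d i := by
  obtain ⟨d, h, h1, h2⟩ := G.gen j m γ hγ
  refine Filter.eventually_atTop.2 ⟨d, fun e he => ?_⟩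
  obtain ⟨e, rfl⟩ := Nat.exists_eq_add_of_le he
  have h3 := G.rho_epi (j + d) e
  rw [add_assoc] at h3
  refine ⟨fun i => h (rho G.σ (j + d) e i), h1.comp h3, fun i hi => ?_⟩
  rw [rho_add, h2 _ (h3.le i hi)]

theorem contract (j d : ℕ) {i i' : ℕ} (hi : i ≤ G.N (j + d)) (hi' : i' ≤ G.N (j + d))
    (h1 : i ≤ i' + 2 ^ d) (h2 : i' ≤ i + 2 ^ d) : rho G.σ j d i ≤ rho G.σ j d i' + 1 := by
  induction d generalizing i i' with
  | zero => simpa [rho] using h1
  | succ d ih =>
    simp only [rho]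
    have h3 := (G.epi (j + d)).lazy.lip hi hi' h1 h2
    have h4 := (G.epi (j + d)).lazy.lip hi' hi h2 h1
    have h5 := (G.epi (j + d)).le i hi
    have h6 := (G.epi (j + d)).le i' hi'
    rw [pow_succ] at h3 h4
    exact ih (by omega) (by omega) (by omega) (by omega)

end Gen

end Pool.Agent.Lib.MP_11d477_gt
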