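import Pool.Agent.Lib.MP_11d477_gt.Space

/-! Homogeneity of the inverse limit, by a back and forth construction. -/

set_option autoImplicit false

open Set

namespace Pool.Agent.Lib.MP_11d477_gt

theorem homeo_of_rel {X : Type} [TopologicalSpace X] [CompactSpace X] [T2Space X]
    {H : Set (X × X)} (hc : IsClosed H) (h1 : ∀ u, ∃ v, (u, v) ∈ H) (h2 : ∀ v, ∃ u, (u, v) ∈ H)
    (h3 : ∀ u u' v, (u, v) ∈ H → (u', v) ∈ H → u = u')
    (h4 : ∀ u v v', (u, v) ∈ H → (u, v') ∈ H → v = v') :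
    ∃ h : X ≃ₜ X, ∀ u v, (u, v) ∈ H → h u = v := by
  have : CompactSpace H := isCompact_iff_compactSpace.1 hc.isCompact
  let e1 : H ≃ X := Equiv.ofBijective (fun p => p.1.1) ⟨fun p q h => by
    have h' : p.1.1 = q.1.1 := h
    exact Subtype.ext (Prod.ext h' (h4 p.1.1 _ _ p.2 (by rw [h']; exact q.2))), fun u => by
    obtain ⟨v, hv⟩ := h1 u
    exact ⟨⟨(u, v), hv⟩, rfl⟩⟩
  let e2 : H ≃ X := Equiv.ofBijective (fun p => p.1.2) ⟨fun p q h => by
    have h' : p.1.2 = q.1.2 := h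
    exact Subtype.ext (Prod.ext (h3 _ _ p.1.2 p.2 (by rw [h']; exact q.2)) h'), fun v => by
    obtain ⟨u, hu⟩ := h2 v
    exact ⟨⟨(u, v), hu⟩, rfl⟩⟩
  have c1 : Continuous e1 := continuous_fst.comp continuous_subtype_val
  have c2 : Continuous e2 := continuous_snd.comp continuous_subtype_val
  refine ⟨c1.homeoOfEquivCompactToT2.symm.trans c2.homeoOfEquivCompactToT2, fun u v h => ?_⟩
  have : c1.homeoOfEquivCompactToT2.symm u = ⟨(u, v), h⟩ := by
    rw [Homeomorph.symm_apply_eq]; rfl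
  rw [Homeomorph.trans_apply, this]
  rfl

theorem epi_sub (c e : ℕ) : Epi c (c - e) fun i => i - e :=
  ⟨fun i _ => by omega, fun i hi => by omega, fun j hj => by
    rcases Nat.eq_zero_or_pos j with rfl | h
    · exact ⟨0, Nat.zero_le _, by simp⟩
    · exact ⟨j + e, by omega, by omega⟩⟩

/-- A stage of the back and forth construction. -/
structure St (G : Gen) (x y : G.P) where
  k : ℕ
  l : ℕ
  c : ℕ
  φ : ℕ → ℕ
  ψ : ℕ → ℕ
  hφ : Epi (G.N k) c φ
  hψ : Epi (G.N l) c ψ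
  x0 : ∀ i, G.Near x k i → φ i = 0
  y0 : ∀ i, G.Near y l i → ψ i = 0

namespace St

variable {G : Gen} {x y : G.P}

/-- The relation approximating the homeomorphism. -/
def Rel (S : St G x y) : Set (G.P × G.P) :=
  {p | ∃ i i', G.Near p.1 S.k i ∧ G.Near p.2 S.l i' ∧ S.φ i ≤ S.ψ i' + 3 ∧ S.ψ i' ≤ S.φ i + 3}

/-- Exchange of the two sides. -/
def swap (S : St G x y) : St G y x := ⟨S.l, S.k, S.c, S.ψ, S.φ, S.hψ, S.hφ, S.y0, S.x0⟩

theorem mem_swap (S : St G x y) (u v : G.P) : (v, u) ∈ S.swap.Rel ↔ (u, v) ∈ S.Rel :=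
  ⟨fun ⟨i, i', h1, h2, h3, h4⟩ => ⟨i', i, h2, h1, h4, h3⟩,
    fun ⟨i, i', h1, h2, h3, h4⟩ => ⟨i', i, h2, h1, h4, h3⟩⟩

theorem rel_closed (S : St G x y) : IsClosed S.Rel := by
  have : S.Rel = ⋃ i ∈ Iic (G.N S.k), ⋃ i' ∈ Iic (G.N S.l), (Prod.fst ⁻¹' {u | G.Near u S.k i} ∩
      Prod.snd ⁻¹' {v | G.Near v S.l i'}) ∩ {_p | S.φ i ≤ S.ψ i' + 3 ∧ S.ψ i' ≤ S.φ i + 3} := by
    ext p
    simp only [mem_iUnion]
    exact ⟨fun ⟨i, i', h1, h2, h3⟩ => ⟨i, h1.1, i', h2.1, ⟨h1, h2⟩, h3⟩,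
      fun ⟨i, _, i', _, ⟨h1, h2⟩, h3⟩ => ⟨i, i', h1, h2, h3⟩⟩
  rw [this]
  exact (finite_Iic _).isClosed_biUnion fun i _ => (finite_Iic _).isClosed_biUnion fun i' _ =>
    (((G.near_closed _ _).preimage continuous_fst).inter
      ((G.near_closed _ _).preimage continuous_snd)).inter isClosed_const

theorem base_mem (S : St G x y) : (x, y) ∈ S.Rel := by
  obtain ⟨i, hi⟩ := G.exists_near x S.k
  obtain ⟨i', hi'⟩ := G.exists_near y S.l
  exact ⟨i, i', hi, hi', by rw [S.x0 i hi]; omega, by rw [S.y0 i' hi']; omega⟩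

theorem total (S : St G x y) (u : G.P) : ∃ v, (u, v) ∈ S.Rel := by
  obtain ⟨i, hi⟩ := G.exists_near u S.k
  obtain ⟨i', h1, h2⟩ := S.hψ.surj _ (S.hφ.le i hi.1)
  obtain ⟨v, hv⟩ := G.P_surj S.l i' ⟨by positivity, by exact_mod_cast h1⟩
  exact ⟨v, i, i', hi, ⟨h1, by simp [hv]⟩, by omega, by omega⟩

theorem lift_right (S : St G x y) {c' : ℕ} {α : ℕ → ℕ} (hα : Lazy c' α) (h0 : α 0 = 0)
    (hle : ∀ j, j ≤ c' → α j ≤ S.c) (hbig : ∃ j, j ≤ c' ∧ S.c ≤ α j + 1) :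
    ∃ l' ψ', S.l ≤ l' ∧ Epi (G.N l') c' ψ' ∧ (∀ i, G.Near y l' i → ψ' i = 0) ∧
      ∀ i, i ≤ G.N l' → α (ψ' i) ≤ S.ψ (G.r S.l l' i) + 1 ∧ S.ψ (G.r S.l l' i) ≤ α (ψ' i) + 1 := by
  classical
  obtain ⟨a, ha1, ⟨j0, hj0, ha2⟩, ha3, ha4⟩ : ∃ a, (∀ j, j ≤ c' → α j ≤ a) ∧
      (∃ j, j ≤ c' ∧ α j = a) ∧ S.c ≤ a + 1 ∧ a ≤ S.c := by
    by_cases c : ∃ j, j ≤ c' ∧ α j = S.c
    · exact ⟨S.c, hle, c, by omega, le_rfl⟩
    · push Not at c
      obtain ⟨j, hj, h⟩ := hbig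
      have := hle j hj
      have := c j hj
      refine ⟨S.c - 1, fun i hi => ?_, ⟨j, hj, by omega⟩, by omega, by omega⟩
      have := hle i hi
      have := c i hi
      omega
  have hg : Epi (G.N (S.l + 1)) S.c fun i => S.ψ (G.r S.l (S.l + 1) i) :=
    S.hψ.comp (G.r_epi (Nat.le_succ _))
  have hz : ∀ i i', i ≤ G.N (S.l + 1) → G.Near y (S.l + 1) i' → i ≤ i' + 1 → i' ≤ i + 1 →
      S.ψ (G.r S.l (S.l + 1) i) = 0 := fun i i' hi h h1 h2 => by
    refine S.y0 _ (G.near_r_succ hi ?_)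
    have h3 := abs_le.1 h.2
    have h4 : (i : ℝ) ≤ i' + 1 := by exact_mod_cast h1
    have h5 : (i' : ℝ) ≤ i + 1 := by exact_mod_cast h2
    rw [abs_le]
    constructor <;> linarith [h3.1, h3.2]
  have e1 : Epi (G.N (S.l + 1)) (a + 1) fun i => if G.Near y (S.l + 1) i then 0 else
      min (S.ψ (G.r S.l (S.l + 1) i)) a + 1 := by
    obtain ⟨i0, hi0⟩ := G.exists_near y (S.l + 1)
    obtain ⟨i1, h1, h2, h3⟩ : ∃ i, i ≤ G.N (S.l + 1) ∧ ¬ G.Near y (S.l + 1) i ∧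
        a ≤ S.ψ (G.r S.l (S.l + 1) i) := by
      rcases Nat.eq_zero_or_pos a with rfl | hpos
      · have h8 := G.eight_le (S.l + 1)
        by_cases c : G.Near y (S.l + 1) 0
        · exact ⟨8, h8, fun h => by have := G.near_near h c; omega, Nat.zero_le _⟩
        · exact ⟨0, Nat.zero_le _, c, Nat.zero_le _⟩
      · obtain ⟨i, hi, h⟩ := hg.surj _ le_rfl
        refine ⟨i, hi, fun h' => ?_, by omega⟩
        have := hz i i hi h' (by omega) (by omega)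
        omega
    refine epi_of_lazy (fun i hi => ?_) (fun i _ => ?_) hi0.1 h1 (by simp only [if_pos hi0])
      (by simp only [if_neg h2]; omega)
    · have h4 := hg.lazy i hi
      have h5 := fun h => hz (i + 1) i (by omega) h (by omega) (by omega)
      have h6 := fun h => hz i (i + 1) (by omega) h (by omega) (by omega)
      split_ifs with c1 c2 c2
      · omega
      · have := h6 c1; omega
      · have := h5 c2; omega
      · omega
    · split_ifs <;> omega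
  have e2 : Epi (c' + 1) (a + 1) fun j => if j = 0 then 0 else α (j - 1) + 1 := by
    refine epi_of_lazy (fun i hi => ?_) (fun i hi => ?_) (a := 0) (b := j0 + 1) (by omega)
      (by omega) (by simp) (by simp [ha2])
    · rcases Nat.eq_zero_or_pos i with rfl | hpos
      · simp [h0]
      · obtain ⟨i, rfl⟩ := Nat.exists_eq_add_one_of_ne_zero hpos.ne'
        have := hα i (by omega)
        simp only [Nat.add_sub_cancel, Nat.add_one_ne_zero, if_false]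
        omega
    · split_ifs
      · omega
      · have := ha1 (i - 1) (by omega); omega
  obtain ⟨d, p, q, hp, hq, hpq⟩ := amalgam e1 e2
  obtain ⟨l', hl', h, hh, hr⟩ := G.r_gen (S.l + 1) d p hp
  have e3 := (epi_sub (c' + 1) 1).comp (hq.comp hh)
  rw [Nat.add_sub_cancel] at e3
  refine ⟨l', _, by omega, e3, fun i hi => ?_, fun i hi => ?_⟩
  · have h1 := hpq (h i) (hh.le i hi.1)
    rw [hr i hi.1, if_pos (G.near_r hl' hi)] at h1
    split_ifs at h1 with c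
    omega
  · have h1 := hpq (h i) (hh.le i hi)
    have h2 := (G.r_epi hl').le i hi
    rw [hr i hi] at h1
    rw [G.r_trans (Nat.le_add_right _ 1) hl']
    have h3 := hg.le _ h2
    have h4 := fun h => hz _ _ h2 h (Nat.le_succ _) (Nat.le_succ _)
    by_cases c1 : G.Near y (S.l + 1) (G.r (S.l + 1) l' i)
    · rw [if_pos c1] at h1
      have c2 : q (h i) = 0 := by split_ifs at h1 with c2; exact c2
      rw [c2, h4 c1]; simp [h0]
    · rw [if_neg c1] at h1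
      split_ifs at h1 with c2 <;> omega

theorem refine_left (S : St G x y) (s : ℕ) : ∃ S' : St G x y, S'.Rel ⊆ S.Rel ∧ ∃ K, s ≤ K ∧
    ∀ u u' v, (u, v) ∈ S'.Rel → (u', v) ∈ S'.Rel → |u.1 K - u'.1 K| ≤ 30 := by
  obtain ⟨K, hK1, hK2⟩ : ∃ K, S.k + 4 ≤ K ∧ s ≤ K := ⟨S.k + 4 + s, by omega, by omega⟩
  obtain ⟨k', hk', hcr⟩ := G.r_crooked K
  obtain ⟨b, hb⟩ := G.exists_near x k'
  have eK := G.r_epi hk'
  have ek := G.r_epi (show S.k ≤ K by omega)
  obtain ⟨c', φ', β, h1, h2, h3, h4, h5, h6⟩ := unfold_crooked eK.lazy eK.le hcr hb.1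
  let β' : ℕ → ℕ := fun j => if j = 0 then β 0 else β (j + 4)
  have b1 : ∀ j, β' j ≤ G.N K := fun j => by simp only [β']; split_ifs <;> exact h5 _
  have b2 : ∀ j j' e, j ≤ c' - 4 → j' ≤ c' - 4 → j ≤ j' + e → j' ≤ j + e →
      β' j ≤ β' j' + (e + 4) := fun j j' e hj hj' a1 a2 => by
    simp only [β']
    split_ifs
    · omega
    · exact h3.lip (by omega) (by omega) (by omega) (by omega)
    · exact h3.lip (by omega) (by omega) (by omega) (by omega)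
    · exact h3.lip (by omega) (by omega) (by omega) (by omega)
  have b3 : ∀ i, i ≤ G.N k' → β' (φ' i - 4) ≤ G.r K k' i + 6 ∧ G.r K k' i ≤ β' (φ' i - 4) + 6 :=
    fun i hi => by
    have a1 := h6 i hi
    have a2 := h1.le i hi
    simp only [β']
    split_ifs with c
    · have a3 := h3.lip (d := 4) (Nat.zero_le _) a2 (by omega) (by omega)
      have a4 := h3.lip (d := 4) a2 (Nat.zero_le _) (by omega) (by omega)
      omega
    · rw [show φ' i - 4 + 4 = φ' i by omega]; omega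
  have b4 : ∀ i i', i ≤ G.N K → i' ≤ G.N K → i ≤ i' + 16 → i' ≤ i + 16 →
      S.φ (G.r S.k K i) ≤ S.φ (G.r S.k K i') + 1 := fun i i' hi hi' a1 a2 =>
    S.hφ.lazy.lip (ek.le _ hi) (ek.le _ hi') (G.r_contract hK1 hi hi' a1 a2)
      (G.r_contract hK1 hi' hi a2 a1)
  have b5 : ∀ j j', j ≤ c' - 4 → j' ≤ c' - 4 → j ≤ j' + 3 → j' ≤ j + 3 →
      S.φ (G.r S.k K (β' j)) ≤ S.φ (G.r S.k K (β' j')) + 1 := fun j j' hj hj' a1 a2 =>
    b4 _ _ (b1 _) (b1 _) (by have := b2 j j' 3 hj hj' a1 a2; omega)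
      (by have := b2 j' j 3 hj' hj a2 a1; omega)
  have b6 : ∀ i, i ≤ G.N k' → S.φ (G.r S.k K (β' (φ' i - 4))) ≤ S.φ (G.r S.k k' i) + 1 ∧
      S.φ (G.r S.k k' i) ≤ S.φ (G.r S.k K (β' (φ' i - 4))) + 1 := fun i hi => by
    have := b3 i hi
    rw [G.r_trans (show S.k ≤ K by omega) hk']
    exact ⟨b4 _ _ (b1 _) (eK.le _ hi) (by omega) (by omega),
      b4 _ _ (eK.le _ hi) (b1 _) (by omega) (by omega)⟩
  have e1 := (epi_sub c' 4).comp h1
  obtain ⟨l', ψ', a1, a2, a3, a4⟩ := S.lift_right (c' := c' - 4)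
    (α := fun j => S.φ (G.r S.k K (β' j)))
    (fun j hj => ⟨b5 _ _ (by omega) (by omega) (by omega) (by omega),
      b5 _ _ (by omega) (by omega) (by omega) (by omega)⟩)
    (by
      simp only [β', if_pos]
      rw [h4]
      exact S.x0 _ (G.near_r (by omega) (G.near_r hk' hb)))
    (fun j _ => S.hφ.le _ (ek.le _ (b1 j)))
    (by
      obtain ⟨i, hi, h⟩ := (S.hφ.comp (G.r_epi (show S.k ≤ k' by omega))).surj _ le_rfl
      exact ⟨φ' i - 4, e1.le i hi, by rw [← h]; exact (b6 i hi).2⟩)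
  refine ⟨⟨k', l', c' - 4, _, ψ', e1, a2, fun i hi => ?_, a3⟩, ?_, K, hK2, ?_⟩
  · have := h1.lazy.lip (d := 4) hi.1 hb.1 (G.near_near hi hb) (G.near_near hb hi)
    omega
  · rintro ⟨u, v⟩ ⟨i, i', c1, c2, c3, c4⟩
    simp only at c1 c2 c3 c4
    have d1 := b6 i c1.1
    have d2 := a4 i' c2.1
    have d3 := b5 _ _ (e1.le i c1.1) (a2.le i' c2.1) c3 c4
    have d4 := b5 _ _ (a2.le i' c2.1) (e1.le i c1.1) c4 c3
    exact ⟨_, _, G.near_r (by omega) c1, G.near_r a1 c2, by omega, by omega⟩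
  · rintro u u' v ⟨i, j, c1, c2, c3, c4⟩ ⟨i', j', d1, d2, d3, d4⟩
    simp only at c1 c2 c3 c4 d1 d2 d3 d4
    have f1 := a2.lazy.lip c2.1 d2.1 (G.near_near c2 d2) (G.near_near d2 c2)
    have f2 := a2.lazy.lip d2.1 c2.1 (G.near_near d2 c2) (G.near_near c2 d2)
    have f3 := b2 _ _ 10 (e1.le i c1.1) (e1.le i' d1.1) (by omega) (by omega)
    have f4 := b2 _ _ 10 (e1.le i' d1.1) (e1.le i c1.1) (by omega) (by omega)
    have f5 := b3 i c1.1
    have f6 := b3 i' d1.1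
    have f7 := abs_le.1 (G.near_r hk' c1).2
    have f8 := abs_le.1 (G.near_r hk' d1).2
    have g1 : (G.r K k' i : ℝ) ≤ G.r K k' i' + 26 := by
      exact_mod_cast (show G.r K k' i ≤ G.r K k' i' + 26 by omega)
    have g2 : (G.r K k' i' : ℝ) ≤ G.r K k' i + 26 := by
      exact_mod_cast (show G.r K k' i' ≤ G.r K k' i + 26 by omega)
    rw [abs_le]
    constructor <;> linarith [f7.1, f7.2, f8.1, f8.2]

theorem refine_both (S : St G x y) (s : ℕ) : ∃ S' : St G x y, S'.Rel ⊆ S.Rel ∧ (∃ K, s ≤ K ∧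
    ∀ u u' v, (u, v) ∈ S'.Rel → (u', v) ∈ S'.Rel → |u.1 K - u'.1 K| ≤ 30) ∧ ∃ K, s ≤ K ∧
    ∀ u v v', (u, v) ∈ S'.Rel → (u, v') ∈ S'.Rel → |v.1 K - v'.1 K| ≤ 30 := by
  obtain ⟨S1, h1, K, h2, h3⟩ := S.refine_left s
  obtain ⟨S2, h4, L, h5, h6⟩ := S1.swap.refine_left s
  have h7 : S2.swap.Rel ⊆ S1.Rel := fun p hp =>
    (S1.mem_swap p.1 p.2).1 (h4 ((S2.mem_swap p.2 p.1).1 hp))
  exact ⟨S2.swap, h7.trans h1, ⟨K, h2, fun u u' v a b => h3 u u' v (h7 a) (h7 b)⟩, L, h5,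
    fun u v v' a b => h6 v v' u ((S2.mem_swap _ _).1 a) ((S2.mem_swap _ _).1 b)⟩

end St

theorem Gen.homog (G : Gen) (x y : G.P) : ∃ h : G.P ≃ₜ G.P, h x = y := by
  have e0 : Epi (G.N 0) 0 fun _ => 0 :=
    ⟨fun _ _ => by omega, fun _ _ => le_rfl, fun j hj => ⟨0, Nat.zero_le _, by omega⟩⟩
  choose nx h1 h2 h3 using St.refine_both (G := G) (x := x) (y := y)
  let S : ℕ → St G x y := fun n =>
    Nat.rec ⟨0, 0, 0, _, _, e0, e0, fun _ _ => rfl, fun _ _ => rfl⟩ (fun n S => nx S n) n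
  have hS : ∀ n, (S (n + 1)).Rel ⊆ (S n).Rel := fun n => h1 _ _
  obtain ⟨h, hh⟩ := homeo_of_rel (H := ⋂ n, (S n).Rel) (isClosed_iInter fun n => (S n).rel_closed)
    (fun u => by
      have hc : ∀ n, IsClosed {v | (u, v) ∈ (S n).Rel} := fun n =>
        (S n).rel_closed.preimage (Continuous.prodMk_right u)
      obtain ⟨v, hv⟩ := IsCompact.nonempty_iInter_of_sequence_nonempty_isCompact_isClosed
        (fun n => {v | (u, v) ∈ (S n).Rel}) (fun n v hv => hS n hv) (fun n => (S n).total u)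
        (hc 0).isCompact hc
      exact ⟨v, mem_iInter.2 fun n => mem_iInter.1 hv n⟩)
    (fun v => by
      have hc : ∀ n, IsClosed {u | (u, v) ∈ (S n).Rel} := fun n =>
        (S n).rel_closed.preimage (Continuous.prodMk_left v)
      obtain ⟨u, hu⟩ := IsCompact.nonempty_iInter_of_sequence_nonempty_isCompact_isClosed
        (fun n => {u | (u, v) ∈ (S n).Rel}) (fun n v hv => hS n hv) (fun n => by
          obtain ⟨u, hu⟩ := (S n).swap.total v
          exact ⟨u, ((S n).mem_swap _ _).1 hu⟩) (hc 0).isCompact hc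
      exact ⟨u, mem_iInter.2 fun n => mem_iInter.1 hu n⟩)
    (fun u u' v a b => G.eq_of_close (c := 30) fun s => by
      obtain ⟨K, c1, c2⟩ := h2 (S s) s
      exact ⟨K, c1, c2 u u' v (mem_iInter.1 a (s + 1)) (mem_iInter.1 b (s + 1))⟩)
    (fun u v v' a b => G.eq_of_close (c := 30) fun s => by
      obtain ⟨K, c1, c2⟩ := h3 (S s) s
      exact ⟨K, c1, c2 u v v' (mem_iInter.1 a (s + 1)) (mem_iInter.1 b (s + 1))⟩)
  exact ⟨h, hh x y (mem_iInter.2 fun n => (S n).base_mem)⟩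

end Pool.Agent.Lib.MP_11d477_gt
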