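import Pool.Agent.Lib.MP_11d477_gt.Square

/-! The square of the inverse limit has trivial shape. -/

set_option autoImplicit false

open Set unitInterval

namespace Pool.Agent.Lib.MP_11d477_gt

/-- Clamp to the unit interval. -/
noncomputable def cl (t : ℝ) : I := projIcc 0 1 zero_le_one t

theorem cl_cont : Continuous cl := continuous_projIcc (h := zero_le_one)

theorem cl_val (t : I) : cl t = t := projIcc_val _ t

theorem cl_sub (s : ℝ) (t : I) : |(t : ℝ) - cl s| ≤ |t - s| := by
  have := abs_projIcc_sub_projIcc (zero_le_one (α := ℝ)) (c := (t : ℝ)) (d := s)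
  rwa [projIcc_val] at this

namespace Gen

variable (G : Gen)

/-- A point of the cube determined by a pair of coordinates at level `k`. -/
noncomputable def cube (k : ℕ) (p : ℝ × ℝ) : ℕ → I := fun i =>
  cl (G.dn (i / 2) (k - i / 2) (if i % 2 = 0 then p.1 else p.2) / G.N (i / 2))

theorem cube_cont (k : ℕ) : Continuous (G.cube k) := by
  refine continuous_pi fun i => cl_cont.comp (((G.dn_cont _ _).comp ?_).div_const _)
  split_ifs
  exacts [continuous_fst, continuous_snd]

/-- The embedding in the Hilbert cube. -/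
noncomputable def emb (x : G.P × G.P) : ℕ → I := fun i =>
  cl ((if i % 2 = 0 then x.1 else x.2).1 (i / 2) / G.N (i / 2))

theorem N_pos (k : ℕ) : (0 : ℝ) < G.N k := by
  have := G.eight_le k
  exact_mod_cast (show 0 < G.N k by omega)

theorem mul_cl (u : G.P) (k : ℕ) : G.N k * (cl (u.1 k / G.N k) : ℝ) = u.1 k := by
  have h := G.N_pos k
  have h1 := G.P_mem u k
  rw [cl, projIcc_of_mem _ ⟨div_nonneg h1.1 h.le, (div_le_one h).2 h1.2⟩]
  field_simp

theorem emb_even (x : G.P × G.P) (k : ℕ) : G.N k * (G.emb x (2 * k) : ℝ) = x.1.1 k := by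
  simp only [emb]
  rw [if_pos (by omega), show 2 * k / 2 = k by omega, mul_cl]

theorem emb_odd (x : G.P × G.P) (k : ℕ) : G.N k * (G.emb x (2 * k + 1) : ℝ) = x.2.1 k := by
  simp only [emb]
  rw [if_neg (by omega), show (2 * k + 1) / 2 = k by omega, mul_cl]

theorem emb_cont : Continuous G.emb := by
  refine continuous_pi fun i => cl_cont.comp (((G.coord_cont _).comp ?_).div_const _)
  split_ifs
  exacts [continuous_fst, continuous_snd]

theorem emb_inj : Function.Injective G.emb := fun x y h =>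
  Prod.ext (Subtype.ext (funext fun k => by rw [← G.emb_even, h, G.emb_even]))
    (Subtype.ext (funext fun k => by rw [← G.emb_odd, h, G.emb_odd]))

theorem cube_emb (x : G.P × G.P) {k i : ℕ} (hi : i < k) :
    G.cube k (x.1.1 k, x.2.1 k) i = G.emb x i := by
  simp only [cube, emb]
  rw [G.P_dn _ (i / 2) (k - i / 2), show i / 2 + (k - i / 2) = k by omega]
  split_ifs <;> rfl

theorem sq_shape : ∃ e : G.P × G.P → (ℕ → I), Topology.IsEmbedding e ∧
    ∀ U : Set (ℕ → I), IsOpen U → range e ⊆ U → ∃ V : Set (ℕ → I), IsOpen V ∧ range e ⊆ V ∧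
      ∃ h : V ⊆ U, (ContinuousMap.inclusion h).Nullhomotopic := by
  refine ⟨G.emb, (G.emb_cont.isClosedEmbedding G.emb_inj).isEmbedding, fun U hU hUe => ?_⟩
  obtain ⟨k, hk⟩ := fine_cover (Y := ℕ → I) (ι := Unit)
    (fun n => {p | ∀ i, i < n → |(p.1 i : ℝ) - p.2 i| ≤ 1 / (n + 1 : ℝ)})
    (fun n => by
      rw [ofPred_forall]
      refine isClosed_iInter fun i => ?_
      rw [ofPred_forall]
      exact isClosed_iInter fun _ => isClosed_le (by fun_prop) continuous_const)
    (fun n p hp i hi => (hp i (by omega)).trans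
      (one_div_le_one_div_of_le (by positivity) (by push_cast; linarith)))
    (fun p hp => funext fun i => Subtype.ext (by
      rw [← sub_eq_zero, ← abs_nonpos_iff]
      refine le_of_forall_pos_le_add fun ε hε => ?_
      obtain ⟨n, hn⟩ := exists_nat_one_div_lt hε
      have h1 := hp (n + i + 1) i (by omega)
      have h2 : 1 / ((n + i + 1 : ℕ) + 1 : ℝ) ≤ 1 / (n + 1 : ℝ) :=
        one_div_le_one_div_of_le (by positivity) (by
          push_cast; linarith [Nat.cast_nonneg (α := ℝ) i])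
      linarith))
    (isCompact_range G.emb_cont) (U := fun _ => U) (fun _ => hU) (by rwa [iUnion_const])
  have hk' : ∀ z y, (∀ i, i < k → |(G.emb z i : ℝ) - y i| ≤ 1 / (k + 1 : ℝ)) → y ∈ U :=
    fun z y h => by
      obtain ⟨-, h1⟩ := hk _ (mem_range_self z)
      exact h1 y h
  have hN := G.N_pos k
  let c : I × (ℕ → I) → (ℕ → I) := fun p =>
    G.cube k (G.N k * (σ p.1 * p.2 (2 * k) : I), G.N k * (σ p.1 * p.2 (2 * k + 1) : I))
  have cc : Continuous c := (G.cube_cont k).comp (by
    simp only [Icc.coe_mul]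
    fun_prop)
  have hm : ∀ t : I, (G.N k * t : ℝ) ∈ Icc (0 : ℝ) (G.N k) := fun t =>
    ⟨mul_nonneg hN.le t.2.1, mul_le_of_le_one_right hN.le t.2.2⟩
  have cU : ∀ p, c p ∈ U := fun p => by
    obtain ⟨u, hu⟩ := G.P_surj k _ (hm (σ p.1 * p.2 (2 * k)))
    obtain ⟨v, hv⟩ := G.P_surj k _ (hm (σ p.1 * p.2 (2 * k + 1)))
    refine hk' (u, v) _ fun i hi => ?_
    simp only [c]
    rw [← hu, ← hv, G.cube_emb (u, v) hi, sub_self, abs_zero]
    positivity
  have c0 : Continuous fun y => c (0, y) := cc.comp (Continuous.prodMk_right 0)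
  let V : Set (ℕ → I) := ⋃ z, ⋂ i ∈ Iio k, {y | |(G.emb z i : ℝ) - y i| < 1 / (k + 1 : ℝ) ∧
    |(G.emb z i : ℝ) - c (0, y) i| < 1 / (k + 1 : ℝ)}
  have hV : ∀ y ∈ V, ∃ z, ∀ i, i < k → |(G.emb z i : ℝ) - y i| < 1 / (k + 1 : ℝ) ∧
      |(G.emb z i : ℝ) - c (0, y) i| < 1 / (k + 1 : ℝ) := fun y hy => by
    simpa only [V, mem_iUnion, mem_iInter, mem_Iio, mem_ofPred_eq] using hy
  have hVU : V ⊆ U := fun y hy => by
    obtain ⟨z, hz⟩ := hV y hy
    exact hk' z y fun i hi => (hz i hi).1.le
  refine ⟨V, isOpen_iUnion fun z => (finite_Iio k).isOpen_biInter fun i _ => IsOpen.inter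
    (isOpen_lt (f := fun y : ℕ → I => |(G.emb z i : ℝ) - y i|) (by fun_prop) continuous_const)
    (isOpen_lt (f := fun y => |(G.emb z i : ℝ) - c (0, y) i|) (by fun_prop) continuous_const), ?_,
    hVU, ⟨c (1, 0), cU _⟩, ContinuousMap.Homotopic.trans
      (g := ⟨fun y => ⟨c (0, y.1), cU _⟩, (c0.comp continuous_subtype_val).subtype_mk _⟩)
      ⟨⟨⟨fun p => ⟨fun i => cl ((1 - p.1) * p.2.1 i + p.1 * c (0, p.2.1) i), ?_⟩, ?_⟩, ?_, ?_⟩⟩
      ⟨⟨⟨fun p => ⟨c (p.1, p.2.1), cU _⟩, (cc.comp (by fun_prop)).subtype_mk _⟩, fun _ => rfl,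
        fun y => ?_⟩⟩⟩
  · rintro _ ⟨z, rfl⟩
    refine mem_iUnion.2 ⟨z, mem_iInter₂.2 fun i hi => ?_⟩
    simp only [c, mem_ofPred_eq, symm_zero, one_mul]
    rw [G.emb_even, G.emb_odd, G.cube_emb z hi, sub_self, abs_zero]
    exact ⟨by positivity, by positivity⟩
  · obtain ⟨z, hz⟩ := hV _ p.2.2
    refine hk' z _ fun i hi => (cl_sub _ _).trans ?_
    have h1 := abs_lt.1 (hz i hi).1
    have h2 := abs_lt.1 (hz i hi).2
    have h3 := p.1.2.1
    have h4 := sub_nonneg.2 p.1.2.2
    rw [abs_le]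
    constructor <;> nlinarith [h1.1, h1.2, h2.1, h2.2]
  · have c1 : Continuous fun p : I × V => c (0, p.2.1) :=
      c0.comp (continuous_subtype_val.comp continuous_snd)
    refine (continuous_pi fun i => cl_cont.comp ?_).subtype_mk _
    have c2 : Continuous fun p : I × V => (c (0, p.2.1) i : ℝ) :=
      continuous_subtype_val.comp ((continuous_apply i).comp c1)
    have c3 : Continuous fun p : I × V => (p.1 : ℝ) := by fun_prop
    have c4 : Continuous fun p : I × V => (p.2.1 i : ℝ) := continuous_subtype_val.comp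
      ((continuous_apply i).comp (continuous_subtype_val.comp continuous_snd))
    exact ((continuous_const.sub c3).mul c4).add (c3.mul c2)
  · exact fun y => Subtype.ext (funext fun i => by simp [cl_val]; rfl)
  · exact fun y => Subtype.ext (funext fun i => by simp [cl_val])
  · exact Subtype.ext (by simp [c])

end Gen

end Pool.Agent.Lib.MP_11d477_gt
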