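import Pool.Agent.Lib.MP_11d477_gt.Endpoint

/-! The inverse limit of the generic sequence. -/

set_option autoImplicit false

open Set

namespace Pool.Agent.Lib.MP_11d477_gt

theorem fine_cover {Y ι : Type} [UniformSpace Y] [CompactSpace Y] (D : ℕ → Set (Y × Y))
    (hc : ∀ n, IsClosed (D n)) (ha : ∀ n, D (n + 1) ⊆ D n)
    (hd : ∀ p : Y × Y, (∀ n, p ∈ D n) → p.1 = p.2) {K : Set Y} (hK : IsCompact K) {U : ι → Set Y}
    (hU : ∀ i, IsOpen (U i)) (hcov : K ⊆ ⋃ i, U i) :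
    ∃ n, ∀ x ∈ K, ∃ i, ∀ y, (x, y) ∈ D n → y ∈ U i := by
  obtain ⟨V, hV, h1⟩ := lebesgue_number_lemma hK hU hcov
  obtain ⟨V', ⟨hV', ho⟩, hs⟩ := uniformity_hasBasis_open.mem_iff.1 hV
  have : ∃ n, D n ⊆ V' := by
    by_contra hcon
    push Not at hcon
    obtain ⟨p, hp⟩ := IsCompact.nonempty_iInter_of_sequence_nonempty_isCompact_isClosed
      (fun n => D n ∩ V'ᶜ) (fun n => inter_subset_inter_left _ (ha n))
      (fun n => by
        obtain ⟨p, h1, h2⟩ := not_subset.1 (hcon n)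
        exact ⟨p, h1, h2⟩) ((hc 0).inter ho.isClosed_compl).isCompact
      fun n => (hc n).inter ho.isClosed_compl
    rw [mem_iInter] at hp
    have h2 := hd p fun n => (hp n).1
    refine (hp 0).2 ?_
    rw [show p = (p.1, p.1) from Prod.ext rfl h2.symm]
    exact refl_mem_uniformity hV'
  obtain ⟨n, hn⟩ := this
  refine ⟨n, fun x hx => ?_⟩
  obtain ⟨i, hi⟩ := h1 x hx
  exact ⟨i, fun y hy => hi (hs (hn hy))⟩

theorem exists_bond {m n : ℕ} {σ : ℕ → ℕ} (h : Epi m (2 * n) σ) : ∃ F : ℝ → ℝ,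
    (∀ s t, |F s - F t| ≤ |s - t| / 2) ∧ (∀ i : ℕ, i ≤ m → F i = σ i / 2) ∧
    ∀ t, F t ∈ Icc (0 : ℝ) n := by
  have h1 : LipschitzOnWith 1 (fun t : ℝ => (σ ⌊t⌋₊ : ℝ)) ((fun i : ℕ => (i : ℝ)) '' Iic m) := by
    refine LipschitzOnWith.of_dist_le_mul ?_
    rintro _ ⟨i, hi, rfl⟩ _ ⟨j, hj, rfl⟩
    simp only [Nat.floor_natCast, NNReal.coe_one, one_mul, Real.dist_eq]
    rcases le_total i j with c | c
    · obtain ⟨e, rfl⟩ := Nat.exists_eq_add_of_le c
      have a1 : (σ i : ℝ) ≤ σ (i + e) + e := by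
        exact_mod_cast h.lazy.lip (d := e) hi hj (by omega) (by omega)
      have a2 : (σ (i + e) : ℝ) ≤ σ i + e := by
        exact_mod_cast h.lazy.lip (d := e) hj hi (by omega) (by omega)
      push_cast
      rw [show (i : ℝ) - (i + e) = -e by ring, abs_neg, Nat.abs_cast, abs_le]
      constructor <;> linarith
    · obtain ⟨e, rfl⟩ := Nat.exists_eq_add_of_le c
      have a1 : (σ j : ℝ) ≤ σ (j + e) + e := by
        exact_mod_cast h.lazy.lip (d := e) hj hi (by omega) (by omega)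
      have a2 : (σ (j + e) : ℝ) ≤ σ j + e := by
        exact_mod_cast h.lazy.lip (d := e) hi hj (by omega) (by omega)
      push_cast
      rw [show (j : ℝ) + e - j = e by ring, Nat.abs_cast, abs_le]
      constructor <;> linarith
  obtain ⟨g, hg1, hg2⟩ := h1.extend_real
  refine ⟨fun t => max 0 (min n (g t / 2)), fun s t => ?_, fun i hi => ?_, fun t =>
    ⟨le_max_left _ _, max_le (by positivity) (min_le_left _ _)⟩⟩
  · have a1 := hg1.dist_le_mul s t
    simp only [NNReal.coe_one, one_mul, Real.dist_eq] at a1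
    refine (abs_max_sub_max_le_max _ _ _ _).trans ?_
    rw [sub_self, abs_zero]
    refine max_le (by positivity) ((abs_min_sub_min_le_max _ _ _ _).trans ?_)
    rw [sub_self, abs_zero]
    refine max_le (by positivity) ?_
    rw [← sub_div, abs_div, abs_two]
    linarith
  · have a1 := hg2 ⟨i, hi, rfl⟩
    simp only [Nat.floor_natCast] at a1
    have a2 : (σ i : ℝ) ≤ 2 * n := by exact_mod_cast h.le i hi
    simp only [← a1]
    rw [min_eq_right (by linarith), max_eq_right (by positivity)]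

namespace Gen

variable (G : Gen)

/-- Real bonding maps. -/
noncomputable def bond (k : ℕ) : ℝ → ℝ := (exists_bond (G.epi k)).choose

theorem bond_lip (k : ℕ) (s t : ℝ) : |G.bond k s - G.bond k t| ≤ |s - t| / 2 :=
  (exists_bond (G.epi k)).choose_spec.1 s t

theorem bond_nat (k i : ℕ) (hi : i ≤ G.N (k + 1)) : G.bond k i = G.σ k i / 2 :=
  (exists_bond (G.epi k)).choose_spec.2.1 i hi

theorem bond_mem (k : ℕ) (t : ℝ) : G.bond k t ∈ Icc (0 : ℝ) (G.N k) :=
  (exists_bond (G.epi k)).choose_spec.2.2 t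

theorem bond_cont (k : ℕ) : Continuous (G.bond k) := by
  refine (LipschitzWith.of_dist_le_mul (K := 1) fun s t => ?_).continuous
  have := G.bond_lip k s t
  have h0 := abs_nonneg (s - t)
  simp only [NNReal.coe_one, one_mul, Real.dist_eq]
  linarith

theorem bond_surj (k : ℕ) (t : ℝ) (ht : t ∈ Icc (0 : ℝ) (G.N k)) :
    ∃ s ∈ Icc (0 : ℝ) (G.N (k + 1)), G.bond k s = t := by
  obtain ⟨a, ha, h0⟩ := (G.epi k).surj 0 (Nat.zero_le _)
  obtain ⟨b, hb, h1⟩ := (G.epi k).surj _ le_rfl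
  have h2 := (isPreconnected_Icc (a := (0 : ℝ)) (b := G.N (k + 1))).intermediate_value
    (a := (a : ℝ)) (b := (b : ℝ)) ⟨by positivity, by exact_mod_cast ha⟩
    ⟨by positivity, by exact_mod_cast hb⟩ (G.bond_cont k).continuousOn
  rw [G.bond_nat k a ha, G.bond_nat k b hb, h0, h1] at h2
  refine h2 ⟨by simpa using ht.1, ?_⟩
  push_cast
  linarith [ht.2]

/-- Composite of real bonding maps from level `j + d` to level `j`. -/
noncomputable def dn (j : ℕ) : ℕ → ℝ → ℝ
  | 0, t => t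
  | d + 1, t => dn j d (G.bond (j + d) t)

theorem dn_succ (j d : ℕ) (t : ℝ) : G.dn j (d + 1) t = G.bond j (G.dn (j + 1) d t) := by
  induction d generalizing t with
  | zero => rfl
  | succ d ih =>
    rw [dn, ih]
    simp only [dn]
    rw [show j + (d + 1) = j + 1 + d by ring]

theorem dn_cont (j d : ℕ) : Continuous (G.dn j d) := by
  induction d with
  | zero => exact continuous_id
  | succ d ih => exact ih.comp (G.bond_cont _)

/-- The inverse limit. -/
def P : Set (ℕ → ℝ) := {u | ∀ k, u k = G.bond k (u (k + 1))}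

theorem P_mem (u : G.P) (k : ℕ) : u.1 k ∈ Icc (0 : ℝ) (G.N k) := by
  rw [u.2 k]; exact G.bond_mem _ _

theorem P_dn (u : G.P) (j d : ℕ) : u.1 j = G.dn j d (u.1 (j + d)) := by
  induction d with
  | zero => rfl
  | succ d ih => rw [dn, ih, u.2 (j + d)]; rfl

theorem P_compact : IsCompact G.P := by
  refine (isCompact_univ_pi fun k => isCompact_Icc (a := (0 : ℝ)) (b := G.N k)).of_isClosed_subset
    ?_ fun u hu k _ => G.P_mem ⟨u, hu⟩ k
  unfold P
  rw [ofPred_forall]
  exact isClosed_iInter fun k => isClosed_eq (continuous_apply k)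
    ((G.bond_cont k).comp (continuous_apply (k + 1)))

instance : CompactSpace G.P := isCompact_iff_compactSpace.1 G.P_compact

theorem coord_cont (k : ℕ) : Continuous fun u : G.P => u.1 k :=
  (continuous_apply k).comp continuous_subtype_val

theorem P_surj (k : ℕ) (t : ℝ) (ht : t ∈ Icc (0 : ℝ) (G.N k)) : ∃ u : G.P, u.1 k = t := by
  choose! up hup1 hup2 using G.bond_surj
  let w : ℕ → ℝ := fun r => Nat.rec t (fun r s => up (k + r) s) r
  have hw1 : ∀ r, w r ∈ Icc (0 : ℝ) (G.N (k + r)) := fun r => by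
    induction r with
    | zero => exact ht
    | succ r ih => exact hup1 _ _ ih
  have hw2 : ∀ r, G.bond (k + r) (w (r + 1)) = w r := fun r => hup2 _ _ (hw1 r)
  refine ⟨⟨fun j => G.dn j k (w j), fun j => ?_⟩, ?_⟩
  · simp only
    rw [← dn_succ, dn, add_comm j k, hw2]
  · have : ∀ d, G.dn k d (w d) = t := fun d => by
      induction d with
      | zero => rfl
      | succ d ih => rw [dn, hw2, ih]
    exact this k

theorem coord_le {u v : G.P} {j d : ℕ} {c : ℝ} (h : |u.1 (j + d) - v.1 (j + d)| ≤ c) :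
    |u.1 j - v.1 j| ≤ c / 2 ^ d := by
  induction d generalizing c with
  | zero => simpa using h
  | succ d ih =>
    have h1 := G.bond_lip (j + d) (u.1 (j + d + 1)) (v.1 (j + d + 1))
    rw [← u.2, ← v.2] at h1
    have h2 := ih (c := c / 2) (by rw [← add_assoc] at h; linarith)
    rw [pow_succ]
    refine h2.trans (le_of_eq ?_)
    field_simp

theorem eq_of_close {u v : G.P} {c : ℝ} (h : ∀ s, ∃ K, s ≤ K ∧ |u.1 K - v.1 K| ≤ c) : u = v := by
  refine Subtype.ext (funext fun j => ?_)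
  rw [← sub_eq_zero, ← abs_nonpos_iff]
  refine le_of_forall_pos_le_add fun ε hε => ?_
  obtain ⟨s, hs⟩ := pow_unbounded_of_one_lt (c / ε) (show (1 : ℝ) < 2 by norm_num)
  obtain ⟨K, hK, h1⟩ := h (j + s)
  obtain ⟨d, rfl⟩ := Nat.exists_eq_add_of_le (show j ≤ K by omega)
  refine (G.coord_le h1).trans ?_
  rw [zero_add, div_le_iff₀ (by positivity)]
  rw [div_lt_iff₀ hε] at hs
  have : (2 : ℝ) ^ s ≤ 2 ^ d := pow_le_pow_right₀ (by norm_num) (by omega)
  nlinarith

/-- Composite of the halved bonding maps between two levels. -/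
def r (j l i : ℕ) : ℕ := rho G.σ j (l - j) i

theorem r_epi {j l : ℕ} (h : j ≤ l) : Epi (G.N l) (G.N j) (G.r j l) := by
  obtain ⟨d, rfl⟩ := Nat.exists_eq_add_of_le h
  unfold r
  rw [Nat.add_sub_cancel_left]
  exact G.rho_epi j d

theorem r_trans {j k l : ℕ} (h1 : j ≤ k) (h2 : k ≤ l) (i : ℕ) :
    G.r j l i = G.r j k (G.r k l i) := by
  obtain ⟨d, rfl⟩ := Nat.exists_eq_add_of_le h1
  obtain ⟨e, rfl⟩ := Nat.exists_eq_add_of_le h2
  unfold r
  rw [Nat.add_sub_cancel_left, Nat.add_sub_cancel_left, show j + d + e - j = d + e by omega,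
    rho_add]

theorem r_contract {j l i i' : ℕ} (h : j + 4 ≤ l) (hi : i ≤ G.N l) (hi' : i' ≤ G.N l)
    (h1 : i ≤ i' + 16) (h2 : i' ≤ i + 16) : G.r j l i ≤ G.r j l i' + 1 := by
  obtain ⟨d, rfl⟩ := Nat.exists_eq_add_of_le (show j ≤ l by omega)
  unfold r
  rw [Nat.add_sub_cancel_left]
  have : 2 ^ 4 ≤ 2 ^ d := Nat.pow_le_pow_right (by norm_num) (by omega)
  exact G.contract j d hi hi' (by omega) (by omega)

theorem ev_shift {j : ℕ} {Q : ℕ → ℕ → Prop} (h : ∀ᶠ d in Filter.atTop, Q (j + d) d) :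
    ∀ᶠ l in Filter.atTop, j ≤ l ∧ Q l (l - j) := by
  obtain ⟨d, hd⟩ := Filter.eventually_atTop.1 h
  refine Filter.eventually_atTop.2 ⟨j + d, fun l hl => ⟨by omega, ?_⟩⟩
  have := hd (l - j) (by omega)
  rwa [show j + (l - j) = l by omega] at this

theorem r_gen (j m : ℕ) (γ : ℕ → ℕ) (hγ : Epi m (G.N j) γ) : ∃ l, j ≤ l ∧
    ∃ h, Epi (G.N l) m h ∧ ∀ i, i ≤ G.N l → γ (h i) = G.r j l i :=
  (ev_shift (Q := fun l d => ∃ h, Epi (G.N l) m h ∧ ∀ i, i ≤ G.N l → γ (h i) = rho G.σ j d i)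
    (G.gen_ev j m γ hγ)).exists

theorem r_crooked (j : ℕ) : ∃ l, j ≤ l ∧ Crooked (G.N l) fun i => (G.r j l i : ℤ) :=
  (ev_shift (Q := fun l d => Crooked (G.N l) fun i => (rho G.σ j d i : ℤ)) (G.crooked_ev j)).exists

/-- The vertex `i` of level `k` is near the point `u`. -/
def Near (u : G.P) (k i : ℕ) : Prop := i ≤ G.N k ∧ |u.1 k - i| ≤ 2

theorem exists_vertex (u : G.P) (k : ℕ) : ∃ i : ℕ, i ≤ G.N k ∧ |u.1 k - i| ≤ 1 := by
  have h := G.P_mem u k
  refine ⟨⌊u.1 k⌋₊, Nat.floor_le_of_le h.2, ?_⟩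
  have h1 := Nat.floor_le h.1
  have h2 := Nat.lt_floor_add_one (u.1 k)
  rw [abs_le]; constructor <;> linarith

theorem exists_near (u : G.P) (k : ℕ) : ∃ i, G.Near u k i := by
  obtain ⟨i, h1, h2⟩ := G.exists_vertex u k
  exact ⟨i, h1, by linarith⟩

theorem near_step (u : G.P) {k i : ℕ} (hi : i ≤ G.N (k + 1)) (h : |u.1 (k + 1) - i| ≤ 3) :
    G.Near u k (G.σ k i / 2) := by
  refine ⟨by have := (G.epi k).le i hi; omega, ?_⟩
  have h1 := G.bond_lip k (u.1 (k + 1)) i
  rw [← u.2, G.bond_nat k i hi] at h1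
  have h2 : ((G.σ k i / 2 : ℕ) : ℝ) ≤ G.σ k i / 2 := Nat.cast_div_le
  have h3 : (G.σ k i : ℝ) ≤ 2 * ((G.σ k i / 2 : ℕ) : ℝ) + 1 := by
    have : G.σ k i ≤ 2 * (G.σ k i / 2) + 1 := by omega
    exact_mod_cast this
  have h4 := abs_le.1 (h1.trans (show |u.1 (k + 1) - i| / 2 ≤ 3 / 2 by linarith))
  rw [abs_le]
  constructor <;> linarith [h4.1, h4.2]

theorem near_r {u : G.P} {j l i : ℕ} (hjl : j ≤ l) (h : G.Near u l i) : G.Near u j (G.r j l i) := by
  obtain ⟨d, rfl⟩ := Nat.exists_eq_add_of_le hjl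
  unfold r
  rw [Nat.add_sub_cancel_left]
  clear hjl
  induction d generalizing i with
  | zero => exact h
  | succ d ih => exact ih (G.near_step u h.1 (le_trans h.2 (by norm_num)))

theorem near_r_succ {u : G.P} {j i : ℕ} (hi : i ≤ G.N (j + 1)) (h : |u.1 (j + 1) - i| ≤ 3) :
    G.Near u j (G.r j (j + 1) i) := by
  unfold r
  rw [Nat.add_sub_cancel_left]
  exact G.near_step u hi h

theorem near_near {u : G.P} {k i i' : ℕ} (h : G.Near u k i) (h' : G.Near u k i') : i ≤ i' + 4 := by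
  have h1 := abs_le.1 h.2
  have h2 := abs_le.1 h'.2
  have : (i : ℝ) ≤ i' + 4 := by linarith [h1.1, h2.2]
  exact_mod_cast this

theorem near_closed (k i : ℕ) : IsClosed {u : G.P | G.Near u k i} := by
  unfold Near
  rw [ofPred_and]
  refine IsClosed.inter (isClosed_const) ?_
  exact isClosed_le ((G.coord_cont k).sub continuous_const).abs continuous_const

end Gen

end Pool.Agent.Lib.MP_11d477_gt
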