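import Pool.Agent.Lib.MP_11d477_gt.Homog

/-! The square of the inverse limit: connectedness and covering dimension. -/

set_option autoImplicit false

open Set

namespace Pool.Agent.Lib.MP_11d477_gt

theorem sperner_grid (d : ℕ) (L : ℕ → ℕ → Fin 3)
    (hb : ∀ i j, i < d → j < d →
      ∃ c, L i j ≠ c ∧ L (i + 1) j ≠ c ∧ L i (j + 1) ≠ c ∧ L (i + 1) (j + 1) ≠ c)
    (hl : ∀ j, j ≤ d → L 0 j ≠ 1) (hr : ∀ j, j ≤ d → L d j ≠ 0) (h0 : ∀ i, i ≤ d → L i 0 ≠ 2)
    (h1 : ∀ i, i ≤ d → L i d = 2) : False := by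
  let e : Fin 3 → Fin 3 → ZMod 2 := fun a b => if (a = 0 ∧ b = 1) ∨ (a = 1 ∧ b = 0) then 1 else 0
  have k1 : ∀ a b c d x : Fin 3, a ≠ x → b ≠ x → c ≠ x → d ≠ x →
      e c d = e a b + (e b d - e a c) := by decide
  have k2 : ∀ a b : Fin 3, a ≠ 1 → b ≠ 1 → e a b = 0 := by decide
  have k3 : ∀ a b : Fin 3, a ≠ 0 → b ≠ 0 → e a b = 0 := by decide
  have k4 : ∀ a b : Fin 3, a ≠ 2 → b ≠ 2 → e a b = e 0 b - e 0 a := by decide
  have k5 : ∀ a b : Fin 3, a ≠ 2 → a ≠ 1 → b ≠ 2 → b ≠ 0 → e 0 b - e 0 a = 1 := by decide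
  have key : ∀ j, j ≤ d → ∑ i ∈ Finset.range d, e (L i j) (L (i + 1) j) = 1 := by
    intro j hj
    induction j with
    | zero =>
      rw [Finset.sum_congr rfl fun i hi => k4 _ _ (h0 i (Finset.mem_range.1 hi).le)
        (h0 (i + 1) (Finset.mem_range.1 hi)), Finset.sum_range_sub fun i => e 0 (L i 0)]
      exact k5 _ _ (h0 0 hj) (hl 0 hj) (h0 d le_rfl) (hr 0 hj)
    | succ j ih =>
      rw [Finset.sum_congr rfl fun i hi => by
        obtain ⟨c, a1, a2, a3, a4⟩ := hb i j (Finset.mem_range.1 hi) hj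
        exact k1 _ _ _ _ c a1 a2 a3 a4, Finset.sum_add_distrib, ih (by omega),
        Finset.sum_range_sub fun i => e (L i j) (L i (j + 1)),
        k2 _ _ (hl j (by omega)) (hl _ hj), k3 _ _ (hr j (by omega)) (hr _ hj)]
      simp
  have := key d le_rfl
  rw [Finset.sum_congr rfl fun i hi => k2 _ _
    (by rw [h1 i (Finset.mem_range.1 hi).le]; decide)
    (by rw [h1 (i + 1) (Finset.mem_range.1 hi)]; decide)] at this
  simp at this

namespace Gen

variable (G : Gen)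

theorem close_succ {u v : G.P} {n : ℕ} (h : |u.1 (n + 1) - v.1 (n + 1)| ≤ 3) :
    |u.1 n - v.1 n| ≤ 3 := (G.coord_le h).trans (by norm_num)

theorem cover_level {ι : Type} {U : ι → Set (G.P × G.P)} (hU : ∀ i, IsOpen (U i))
    (hc : ⋃ i, U i = univ) : ∃ k, ∀ x : G.P × G.P, ∃ i, ∀ y : G.P × G.P,
      |x.1.1 k - y.1.1 k| ≤ 3 → |x.2.1 k - y.2.1 k| ≤ 3 → y ∈ U i := by
  obtain ⟨k, hk⟩ := fine_cover (Y := G.P × G.P)
    (fun k => {p | |p.1.1.1 k - p.2.1.1 k| ≤ 3 ∧ |p.1.2.1 k - p.2.2.1 k| ≤ 3})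
    (fun k => IsClosed.inter
      (isClosed_le (((G.coord_cont k).comp (by fun_prop)).sub
        ((G.coord_cont k).comp (by fun_prop))).abs continuous_const)
      (isClosed_le (((G.coord_cont k).comp (by fun_prop)).sub
        ((G.coord_cont k).comp (by fun_prop))).abs continuous_const))
    (fun k p hp => ⟨G.close_succ hp.1, G.close_succ hp.2⟩)
    (fun p hp => Prod.ext (G.eq_of_close fun s => ⟨s, le_rfl, (hp s).1⟩)
      (G.eq_of_close fun s => ⟨s, le_rfl, (hp s).2⟩)) isCompact_univ hU hc.ge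
  refine ⟨k, fun x => ?_⟩
  obtain ⟨i, hi⟩ := hk x trivial
  exact ⟨i, fun y h1 h2 => hi y ⟨h1, h2⟩⟩

theorem exists_pt (k : ℕ) : ∃ pt : ℕ → G.P, (∀ c, c ≤ G.N k → (pt c).1 k = c) ∧
    ∀ c (u : G.P), |(pt c).1 k - u.1 k| ≤ |u.1 k - c| := by
  choose pt hpt using fun c : ℕ => G.P_surj k (min (c : ℝ) (G.N k))
    ⟨by positivity, min_le_right _ _⟩
  refine ⟨pt, fun c hc => by rw [hpt, min_eq_left (by exact_mod_cast hc)], fun c u => ?_⟩
  have h := (G.P_mem u k).2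
  rw [hpt, abs_sub_comm]
  rcases le_total (c : ℝ) (G.N k) with h1 | h1
  · rw [min_eq_left h1]
  · rw [min_eq_right h1, abs_of_nonpos (by linarith), abs_of_nonpos (by linarith)]
    linarith

theorem exists_ends : ∃ o w : G.P, o.1 0 = 0 ∧ w.1 0 = 8 := by
  obtain ⟨o, ho⟩ := G.P_surj 0 0 ⟨le_rfl, by positivity⟩
  obtain ⟨w, hw⟩ := G.P_surj 0 8 ⟨by norm_num, by rw [G.N0]; norm_num⟩
  exact ⟨o, w, ho, hw⟩

instance : Nontrivial G.P := by
  obtain ⟨o, w, h1, h2⟩ := G.exists_ends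
  exact ⟨o, w, fun h => by rw [h, h2] at h1; norm_num at h1⟩

instance : ConnectedSpace G.P := by
  refine { toPreconnectedSpace := preconnectedSpace_iff_clopen.2 fun A hA => ?_
           toNonempty := inferInstance }
  obtain ⟨k, hk⟩ := G.cover_level (U := fun b : Bool => if b then Prod.fst ⁻¹' A else
      Prod.fst ⁻¹' Aᶜ) (fun b => by
        cases b
        exacts [hA.1.isOpen_compl.preimage continuous_fst, hA.2.preimage continuous_fst])
    (eq_univ_of_forall fun p => mem_iUnion.2 (by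
      by_cases c : p.1 ∈ A
      exacts [⟨true, c⟩, ⟨false, c⟩]))
  have h1 : ∀ u v : G.P, |u.1 k - v.1 k| ≤ 3 → (u ∈ A ↔ v ∈ A) := fun u v h => by
    obtain ⟨b, hb⟩ := hk (u, u)
    have a1 := hb (u, u) (by simp) (by simp)
    have a2 := hb (v, u) h (by simp)
    cases b
    exacts [iff_of_false a1 a2, iff_of_true a1 a2]
  obtain ⟨pt, h2, -⟩ := G.exists_pt k
  have h3 : ∀ c, c ≤ G.N k → (pt c ∈ A ↔ pt 0 ∈ A) := fun c hc => by
    induction c with
    | zero => rfl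
    | succ c ih =>
      rw [← ih (by omega)]
      refine h1 _ _ ?_
      rw [h2 _ hc, h2 c (by omega)]
      norm_num
  have h4 : ∀ u, u ∈ A ↔ pt 0 ∈ A := fun u => by
    obtain ⟨c, a1, a2⟩ := G.exists_vertex u k
    rw [← h3 c a1]
    exact h1 _ _ (by rw [h2 c a1]; linarith)
  by_cases c : pt 0 ∈ A
  · exact Or.inr (eq_univ_of_forall fun u => (h4 u).2 c)
  · exact Or.inl (eq_empty_of_forall_notMem fun u hu => c ((h4 u).1 hu))

theorem sq_homog (x y : G.P × G.P) : ∃ h : (G.P × G.P) ≃ₜ (G.P × G.P), h x = y := by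
  obtain ⟨h1, e1⟩ := G.homog x.1 y.1
  obtain ⟨h2, e2⟩ := G.homog x.2 y.2
  exact ⟨h1.prodCongr h2, Prod.ext e1 e2⟩

theorem sq_dim_le (m : ℕ) (U : Fin m → Set (G.P × G.P)) (hU : ∀ i, IsOpen (U i))
    (hc : ⋃ i, U i = univ) : ∃ V : Fin m → Set (G.P × G.P), (∀ i, IsOpen (V i)) ∧
      (∀ i, V i ⊆ U i) ∧ (⋃ i, V i) = univ ∧ ∀ x, ncard {i : Fin m | x ∈ V i} ≤ 2 + 1 := by
  obtain ⟨k, hk⟩ := G.cover_level hU hc
  choose lab hlab using hk
  obtain ⟨pt, -, h2⟩ := G.exists_pt k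
  refine ⟨fun i => ⋃ c : ℕ, ⋃ b : ℕ, ⋃ _ : (c + b) % 2 = 0 ∧ lab (pt c, pt b) = i,
    {x | |x.1.1 k - c| < 5 / 4 ∧ |x.2.1 k - b| < 1}, fun i => ?_, fun i x hx => ?_,
    eq_univ_of_forall fun x => ?_, fun x => ?_⟩
  · exact isOpen_iUnion fun c => isOpen_iUnion fun b => isOpen_iUnion fun _ => IsOpen.inter
      (isOpen_lt (((G.coord_cont k).comp continuous_fst).sub continuous_const).abs
        continuous_const)
      (isOpen_lt (((G.coord_cont k).comp continuous_snd).sub continuous_const).abs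
        continuous_const)
  · simp only [mem_iUnion] at hx
    obtain ⟨c, b, ⟨-, rfl⟩, a1, a2⟩ := hx
    exact hlab _ x ((h2 c x.1).trans (by linarith)) ((h2 b x.2).trans (by linarith))
  · have a1 := Nat.floor_le (G.P_mem x.1 k).1
    have a2 := Nat.lt_floor_add_one (x.1.1 k)
    have a3 := Nat.floor_le (G.P_mem x.2 k).1
    have a4 := Nat.lt_floor_add_one (x.2.1 k)
    have a5 : |x.2.1 k - (⌊x.2.1 k⌋₊ : ℕ)| < 1 := by rw [abs_lt]; constructor <;> linarith
    simp only [mem_iUnion]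
    by_cases c : (⌊x.1.1 k⌋₊ + ⌊x.2.1 k⌋₊) % 2 = 0
    · exact ⟨_, _, _, ⟨c, rfl⟩, by rw [abs_lt]; constructor <;> linarith, a5⟩
    · exact ⟨_, ⌊x.1.1 k⌋₊ + 1, _, ⟨by omega, rfl⟩,
        by rw [abs_lt]; push_cast; constructor <;> linarith, a5⟩
  · set F := ⌊x.1.1 k + 5 / 4⌋₊
    set g := ⌊x.2.1 k⌋₊
    let f : ℕ → Fin m := fun c => lab (pt c, pt (g + (c + g) % 2))
    refine (ncard_le_ncard (t := {f (F - 2), f (F - 1), f F}) (fun i hi => ?_)).trans ?_
    · simp only [mem_iUnion, mem_ofPred_eq] at hi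
      obtain ⟨c, b, ⟨a0, rfl⟩, a1, a2⟩ := hi
      rw [abs_lt] at a1 a2
      have a3 : c ≤ F := Nat.le_floor (by linarith [a1.1])
      have a4 : (F : ℝ) ≤ x.1.1 k + 5 / 4 := Nat.floor_le (by linarith [(G.P_mem x.1 k).1])
      have a5 : F < c + 3 := by exact_mod_cast (show (F : ℝ) < c + 3 by linarith [a1.2])
      have a6 : (g : ℝ) ≤ x.2.1 k := Nat.floor_le (G.P_mem x.2 k).1
      have a7 : x.2.1 k < g + 1 := Nat.lt_floor_add_one _
      have a8 : g < b + 1 := by exact_mod_cast (show (g : ℝ) < b + 1 by linarith [a2.2])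
      have a9 : b < g + 2 := by exact_mod_cast (show (b : ℝ) < g + 2 by linarith [a2.1])
      have : b = g + (c + g) % 2 := by omega
      rw [this]
      have : c = F - 2 ∨ c = F - 1 ∨ c = F := by omega
      rcases this with h | h | h
      · exact Or.inl (by rw [← h])
      · exact Or.inr (Or.inl (by rw [← h]))
      · exact Or.inr (Or.inr (by rw [← h]; rfl))
    · refine (ncard_insert_le _ _).trans (Nat.succ_le_succ ((ncard_insert_le _ _).trans ?_))
      rw [ncard_singleton]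

theorem sq_not_dim_le : ¬ ∀ (m : ℕ) (U : Fin m → Set (G.P × G.P)), (∀ i, IsOpen (U i)) →
    ⋃ i, U i = univ → ∃ V : Fin m → Set (G.P × G.P), (∀ i, IsOpen (V i)) ∧
      (∀ i, V i ⊆ U i) ∧ (⋃ i, V i) = univ ∧ ∀ x, ncard {i : Fin m | x ∈ V i} ≤ 1 + 1 := by
  intro h
  have c1 : Continuous fun p : G.P × G.P => p.1.1 0 := (G.coord_cont 0).comp continuous_fst
  have c2 : Continuous fun p : G.P × G.P => p.2.1 0 := (G.coord_cont 0).comp continuous_snd
  obtain ⟨V, hV, hW, hc, hn⟩ := h 3 ![{p | p.1.1 0 < 8 ∧ p.2.1 0 < 8},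
    {p | 0 < p.1.1 0 ∧ p.2.1 0 < 8}, {p | 0 < p.2.1 0}] (fun i => by
      fin_cases i
      exacts [(isOpen_lt c1 continuous_const).inter (isOpen_lt c2 continuous_const),
        (isOpen_lt continuous_const c1).inter (isOpen_lt c2 continuous_const),
        isOpen_lt continuous_const c2])
    (eq_univ_of_forall fun p => mem_iUnion.2 (by
      by_cases a1 : 0 < p.2.1 0
      · exact ⟨2, a1⟩
      · by_cases a2 : 0 < p.1.1 0
        · exact ⟨1, a2, by linarith⟩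
        · exact ⟨0, by linarith, by linarith⟩))
  obtain ⟨k, hk⟩ := G.cover_level hV hc
  choose lab hlab using hk
  obtain ⟨pt, h1, -⟩ := G.exists_pt k
  obtain ⟨o, w, ho, hw⟩ := G.exists_ends
  obtain ⟨a0, b1, b2⟩ := G.exists_vertex o k
  obtain ⟨a1, b3, b4⟩ := G.exists_vertex w k
  obtain ⟨d, ω, e1, e2, e3⟩ := exists_tour (G.N k) a0 a1 b1 b3
  have f0 : |(pt (ω 0)).1 k - o.1 k| ≤ 3 := by rw [e2, h1 _ b1, abs_sub_comm]; linarith
  have f1 : |(pt (ω d)).1 k - w.1 k| ≤ 3 := by rw [e3, h1 _ b3, abs_sub_comm]; linarith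
  have f2 : ∀ i, i < d → |(pt (ω (i + 1))).1 k - (pt (ω i)).1 k| ≤ 3 := fun i hi => by
    rw [h1 _ (e1.le _ hi), h1 _ (e1.le _ hi.le)]
    have a1 : (ω (i + 1) : ℝ) ≤ ω i + 1 := by exact_mod_cast (e1.lazy i hi).1
    have a2 : (ω i : ℝ) ≤ ω (i + 1) + 1 := by exact_mod_cast (e1.lazy i hi).2
    rw [abs_le]
    constructor <;> linarith
  have f3 : ∀ t : ℝ, |t - t| ≤ 3 := fun t => by simp
  refine sperner_grid d (fun i j => lab (pt (ω i), pt (ω j))) (fun i j hi hj => ?_)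
    (fun j _ h => ?_) (fun j _ h => ?_) (fun i _ h => ?_) fun i _ => ?_
  · by_contra hcon
    push Not at hcon
    have : {c | (pt (ω i), pt (ω j)) ∈ V c} = univ := eq_univ_of_forall fun c => by
      by_contra hc'
      refine hc' ?_
      rw [← hcon c (by rintro rfl; exact hc' (hlab _ _ (f3 _) (f3 _)))
        (by rintro rfl; exact hc' (hlab _ _ (f2 i hi) (f3 _)))
        (by rintro rfl; exact hc' (hlab _ _ (f3 _) (f2 j hj)))]
      exact hlab _ _ (f2 i hi) (f2 j hj)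
    have h2 := hn (pt (ω i), pt (ω j))
    rw [this, ncard_univ] at h2
    simp at h2
  · have := hW _ (hlab (pt (ω 0), pt (ω j)) (o, pt (ω j)) f0 (f3 _))
    rw [h] at this
    exact absurd ho (ne_of_gt this.1)
  · have := hW _ (hlab (pt (ω d), pt (ω j)) (w, pt (ω j)) f1 (f3 _))
    rw [h] at this
    exact absurd hw (ne_of_lt this.1)
  · have := hW _ (hlab (pt (ω i), pt (ω 0)) (pt (ω i), o) (f3 _) f0)
    rw [h] at this
    exact absurd ho (ne_of_gt this)
  · have := hW _ (hlab (pt (ω i), pt (ω d)) (pt (ω i), w) (f3 _) f1)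
    generalize lab (pt (ω i), pt (ω d)) = c at this
    fin_cases c
    exacts [absurd hw (ne_of_lt this.2), absurd hw (ne_of_lt this.2), rfl]

end Gen

end Pool.Agent.Lib.MP_11d477_gt
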