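import Mathlib

/-! Lazy walks, mountain climbing and amalgamation of epimorphisms of finite paths. -/

set_option autoImplicit false

open Finset

namespace Pool.Agent.Lib.MP_11d477_gt

/-- Consecutive values on `[0, m]` differ by at most one. -/
def Lazy (m : ℕ) (f : ℕ → ℕ) : Prop := ∀ i, i < m → f (i + 1) ≤ f i + 1 ∧ f i ≤ f (i + 1) + 1

/-- An epimorphism of paths `[0, m] → [0, n]`. -/
structure Epi (m n : ℕ) (f : ℕ → ℕ) : Prop where
  lazy : Lazy m f
  le : ∀ i, i ≤ m → f i ≤ n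
  surj : ∀ j, j ≤ n → ∃ i, i ≤ m ∧ f i = j

theorem Lazy.lip {m : ℕ} {f : ℕ → ℕ} (h : Lazy m f) {i j d : ℕ} (hi : i ≤ m) (hj : j ≤ m)
    (h1 : i ≤ j + d) (h2 : j ≤ i + d) : f i ≤ f j + d := by
  have key : ∀ e a, a + e ≤ m → f (a + e) ≤ f a + e ∧ f a ≤ f (a + e) + e := by
    intro e
    induction e with
    | zero => intro a _; simp
    | succ e ih =>
      intro a ha
      have h3 := ih a (by omega)
      have h4 := h (a + e) (by omega)
      rw [← add_assoc]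
      omega
  rcases le_total i j with h3 | h3
  · obtain ⟨e, rfl⟩ := Nat.exists_eq_add_of_le h3
    have := key e i hj
    omega
  · obtain ⟨e, rfl⟩ := Nat.exists_eq_add_of_le h3
    have := key e j hi
    omega

theorem Lazy.ivt_up {m : ℕ} {f : ℕ → ℕ} (h : Lazy m f) {a b v : ℕ} (hab : a ≤ b) (hb : b ≤ m)
    (h1 : f a ≤ v) (h2 : v ≤ f b) : ∃ c, a ≤ c ∧ c ≤ b ∧ f c = v := by
  induction b, hab using Nat.le_induction with
  | base => exact ⟨a, le_rfl, le_rfl, by omega⟩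
  | succ b hab ih =>
    by_cases h3 : v ≤ f b
    · obtain ⟨c, h4, h5, h6⟩ := ih (by omega) h3
      exact ⟨c, h4, by omega, h6⟩
    · have := h b (by omega)
      exact ⟨b + 1, by omega, le_rfl, by omega⟩

theorem Lazy.ivt_down {m : ℕ} {f : ℕ → ℕ} (h : Lazy m f) {a b v : ℕ} (hab : a ≤ b) (hb : b ≤ m)
    (h1 : v ≤ f a) (h2 : f b ≤ v) : ∃ c, a ≤ c ∧ c ≤ b ∧ f c = v := by
  induction b, hab using Nat.le_induction with
  | base => exact ⟨a, le_rfl, le_rfl, by omega⟩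
  | succ b hab ih =>
    by_cases h3 : f b ≤ v
    · obtain ⟨c, h4, h5, h6⟩ := ih (by omega) h3
      exact ⟨c, h4, by omega, h6⟩
    · have := h b (by omega)
      exact ⟨b + 1, by omega, le_rfl, by omega⟩

theorem epi_of_lazy {m n : ℕ} {f : ℕ → ℕ} (h : Lazy m f) (hle : ∀ i, i ≤ m → f i ≤ n) {a b : ℕ}
    (ha : a ≤ m) (hb : b ≤ m) (h0 : f a = 0) (h1 : f b = n) : Epi m n f := by
  refine ⟨h, hle, fun j hj => ?_⟩
  rcases le_total a b with hab | hab
  · obtain ⟨c, -, h3, h4⟩ := h.ivt_up (v := j) hab hb (by omega) (by omega)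
    exact ⟨c, by omega, h4⟩
  · obtain ⟨c, -, h3, h4⟩ := h.ivt_down (v := j) hab ha (by omega) (by omega)
    exact ⟨c, by omega, h4⟩

theorem Lazy.comp {m n : ℕ} {f g : ℕ → ℕ} (hg : Lazy n g) (hf : Lazy m f)
    (hle : ∀ i, i ≤ m → f i ≤ n) : Lazy m (fun i => g (f i)) := by
  intro i hi
  have h1 := hf i hi
  exact ⟨hg.lip (hle _ (by omega)) (hle _ (by omega)) h1.1 h1.2,
    hg.lip (hle _ (by omega)) (hle _ (by omega)) h1.2 h1.1⟩

theorem Epi.comp {m n k : ℕ} {f g : ℕ → ℕ} (hg : Epi n k g) (hf : Epi m n f) :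
    Epi m k (fun i => g (f i)) := by
  refine ⟨hg.lazy.comp hf.lazy hf.le, fun i hi => hg.le _ (hf.le i hi), fun j hj => ?_⟩
  obtain ⟨a, ha, rfl⟩ := hg.surj j hj
  obtain ⟨b, hb, rfl⟩ := hf.surj a ha
  exact ⟨b, hb, rfl⟩

theorem Epi.congr {m n : ℕ} {f g : ℕ → ℕ} (hf : Epi m n f) (h : ∀ i, i ≤ m → g i = f i) :
    Epi m n g := by
  refine ⟨fun i hi => ?_, fun i hi => ?_, fun j hj => ?_⟩
  · rw [h i (by omega), h (i + 1) (by omega)]; exact hf.lazy i hi
  · rw [h i hi]; exact hf.le i hi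
  · obtain ⟨i, hi, he⟩ := hf.surj j hj
    exact ⟨i, hi, by rw [h i hi, he]⟩

theorem epi_id (n : ℕ) : Epi n n (fun i => i) :=
  ⟨fun i _ => by simp; omega, fun _ h => h, fun j hj => ⟨j, hj, rfl⟩⟩

theorem epi_half (n : ℕ) : Epi (2 * n) n (fun i => i / 2) :=
  ⟨fun i _ => by omega, fun i h => by omega, fun j hj => ⟨2 * j, by omega, by omega⟩⟩

/-- King moves among pairs at equal height. -/
def Adj (a b : ℕ) (u v : ℕ → ℕ) (x y : ℕ × ℕ) : Prop :=
  y.1 ≤ a ∧ y.2 ≤ b ∧ u y.1 = v y.2 ∧ (y.1 = x.1 + 1 ∨ x.1 = y.1 + 1) ∧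
    (y.2 = x.2 + 1 ∨ x.2 = y.2 + 1)

theorem deg_parity {s t a b n h x3 x4 x5 x6 : ℕ} (hn : 0 < n) (h1 : s ≤ a) (h2 : t ≤ b)
    (hne : ¬ (s = a ∧ t = b)) (a1 : s < a → x3 = h + 1 ∨ h = x3 + 1)
    (a2 : 0 < s → x5 = h + 1 ∨ h = x5 + 1) (a3 : t < b → x4 = h + 1 ∨ h = x4 + 1)
    (a4 : 0 < t → x6 = h + 1 ∨ h = x6 + 1) (a5 : s + 1 ≤ a → x3 ≤ n) (a7 : x5 ≤ n)
    (a6 : t + 1 ≤ b → x4 ≤ n) (a8 : x6 ≤ n) (a9 : s = 0 → h = 0) (a10 : t = 0 → h = 0)
    (a11 : s = a → h = n) (a12 : t = b → h = n) :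
    (((if s < a ∧ t < b ∧ x3 = x4 then (1 : ZMod 2) else 0) +
      if s < a ∧ 0 < t ∧ x3 = x6 then 1 else 0) +
      ((if 0 < s ∧ t < b ∧ x5 = x4 then 1 else 0) + if 0 < s ∧ 0 < t ∧ x5 = x6 then 1 else 0)) =
      if s = 0 ∧ t = 0 then 1 else 0 := by
  have b1 : (s = 0 ∧ t = 0) ↔ (¬ 0 < s ∧ ¬ 0 < t) := by omega
  simp only [b1]
  by_cases c1 : s < a <;> by_cases c2 : 0 < s <;> by_cases c3 : t < b <;> by_cases c4 : 0 < t <;>
    simp only [c1, c2, c3, c4, true_and, false_and, if_false, not_true, not_false_iff, and_self,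
      and_false, if_true, forall_const, IsEmpty.forall_iff] at a1 a2 a3 a4 ⊢ <;>
    first | (exfalso; omega) | (split_ifs <;> first | decide | (exfalso; omega))

theorem climb_strict {a b n : ℕ} {u v : ℕ → ℕ} (hn : 0 < n)
    (hu : ∀ i, i < a → u (i + 1) = u i + 1 ∨ u i = u (i + 1) + 1)
    (hv : ∀ i, i < b → v (i + 1) = v i + 1 ∨ v i = v (i + 1) + 1)
    (hun : ∀ i, i ≤ a → u i ≤ n) (hvn : ∀ i, i ≤ b → v i ≤ n)
    (hu0 : u 0 = 0) (hv0 : v 0 = 0) (hua : u a = n) (hvb : v b = n) :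
    Relation.ReflTransGen (Adj a b u v) (0, 0) (a, b) := by
  classical
  by_contra hcon
  set K := (range (a + 1) ×ˢ range (b + 1)).filter
    fun x => Relation.ReflTransGen (Adj a b u v) (0, 0) x with hK
  have hKv : ∀ x ∈ K, x.1 ≤ a ∧ x.2 ≤ b ∧ u x.1 = v x.2 := by
    intro x hx
    rw [hK, mem_filter] at hx
    rcases hx.2.cases_tail with h | ⟨y, -, h⟩
    · rw [h]; simp [hu0, hv0]
    · exact ⟨h.1, h.2.1, h.2.2.1⟩
  have hKc : ∀ x ∈ K, ∀ y, Adj a b u v x y → y ∈ K := by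
    intro x hx y h
    rw [hK, mem_filter] at hx ⊢
    refine ⟨?_, hx.2.tail h⟩
    rw [mem_product, mem_range, mem_range]
    have := h.1; have := h.2.1
    omega
  have h0 : (0, 0) ∈ K := by
    rw [hK, mem_filter]
    exact ⟨by simp, Relation.ReflTransGen.refl⟩
  have hsum : ∑ p ∈ (K ×ˢ K).filter (fun p => Adj a b u v p.1 p.2), (1 : ZMod 2) = 0 := by
    refine Finset.sum_involution (fun p _ => (p.2, p.1)) (fun _ _ => by decide) ?_ ?_ ?_
    · intro p hp _ he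
      have h1 := (mem_filter.1 hp).2.2.2.2.1
      have h2 := congrArg (fun q => q.1.1) he
      simp only at h2
      omega
    · intro p hp
      rw [mem_filter, mem_product] at hp ⊢
      obtain ⟨⟨h1, h2⟩, h3⟩ := hp
      have h4 := hKv _ h1
      exact ⟨⟨h2, h1⟩, h4.1, h4.2.1, h4.2.2, h3.2.2.2.1.symm, h3.2.2.2.2.symm⟩
    · intro p _; rfl
  rw [sum_filter, sum_product] at hsum
  have hdeg : ∀ x ∈ K, (∑ y ∈ K, if Adj a b u v x y then (1 : ZMod 2) else 0) =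
      if x = (0, 0) then 1 else 0 := by
    rintro ⟨s, t⟩ hx
    obtain ⟨h1, h2, h3⟩ := hKv _ hx
    simp only at h1 h2 h3
    have hne : ¬ (s = a ∧ t = b) := by
      rintro ⟨rfl, rfl⟩
      exact hcon (mem_filter.1 hx).2
    have e1 : (∑ y ∈ K, if Adj a b u v (s, t) y then (1 : ZMod 2) else 0) =
        ∑ y ∈ ({s + 1, s - 1} : Finset ℕ) ×ˢ ({t + 1, t - 1} : Finset ℕ),
          if Adj a b u v (s, t) y then (1 : ZMod 2) else 0 := by
      rw [← sum_filter, ← sum_filter]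
      refine sum_congr ?_ fun _ _ => rfl
      ext y
      simp only [mem_filter, mem_product, mem_insert, mem_singleton]
      constructor
      · rintro ⟨-, h⟩
        have h4 := h.2.2.2.1
        have h5 := h.2.2.2.2
        simp only at h4 h5
        exact ⟨⟨by omega, by omega⟩, h⟩
      · rintro ⟨-, h⟩
        exact ⟨hKc _ hx y h, h⟩
    rw [e1, sum_product, sum_pair (by omega), sum_pair (by omega), sum_pair (by omega)]
    have c1 : Adj a b u v (s, t) (s + 1, t + 1) ↔ s < a ∧ t < b ∧ u (s + 1) = v (t + 1) := by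
      simp only [Adj, true_or, and_true, true_and]; omega
    have c2 : Adj a b u v (s, t) (s + 1, t - 1) ↔ s < a ∧ 0 < t ∧ u (s + 1) = v (t - 1) := by
      simp only [Adj, true_or, and_true, true_and]; omega
    have c3 : Adj a b u v (s, t) (s - 1, t + 1) ↔ 0 < s ∧ t < b ∧ u (s - 1) = v (t + 1) := by
      simp only [Adj, true_or, and_true, true_and]; omega
    have c4 : Adj a b u v (s, t) (s - 1, t - 1) ↔ 0 < s ∧ 0 < t ∧ u (s - 1) = v (t - 1) := by
      simp only [Adj, true_or, and_true, true_and]; omega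
    simp only [c1, c2, c3, c4, Prod.mk.injEq]
    refine deg_parity (n := n) (h := u s) hn h1 h2 hne (hu s) (fun h => ?_) (h3 ▸ hv t)
      (fun h => ?_) (hun (s + 1)) (hun _ (by omega)) (hvn (t + 1)) (hvn _ (by omega))
      (fun h => by rw [h, hu0]) (fun h => by rw [h3, h, hv0]) (fun h => by rw [h, hua])
      (fun h => by rw [h3, h, hvb])
    · have := hu (s - 1) (by omega)
      rw [Nat.sub_add_cancel h] at this
      omega
    · have := hv (t - 1) (by omega)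
      rw [Nat.sub_add_cancel h] at this
      omega
  rw [sum_congr rfl hdeg, sum_ite_eq' K (0, 0), if_pos h0] at hsum
  exact absurd hsum (by decide)

theorem walk_of_reach {a b : ℕ} {u v : ℕ → ℕ} (h0 : u 0 = v 0) {y : ℕ × ℕ}
    (h : Relation.ReflTransGen (Adj a b u v) (0, 0) y) :
    ∃ (d : ℕ) (p q : ℕ → ℕ), Lazy d p ∧ Lazy d q ∧ p 0 = 0 ∧ q 0 = 0 ∧ p d = y.1 ∧ q d = y.2 ∧
      ∀ i, i ≤ d → p i ≤ a ∧ q i ≤ b ∧ u (p i) = v (q i) := by
  induction h with
  | refl =>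
    exact ⟨0, fun _ => 0, fun _ => 0, fun i hi => by omega, fun i hi => by omega, rfl, rfl, rfl,
      rfl, fun i _ => ⟨by simp, by simp, h0⟩⟩
  | @tail y z _ hyz ih =>
    obtain ⟨d, p, q, h1, h2, h3, h4, h5, h6, h7⟩ := ih
    obtain ⟨b1, b2, b3, b4, b5⟩ := hyz
    refine ⟨d + 1, fun i => if i ≤ d then p i else z.1, fun i => if i ≤ d then q i else z.2,
      fun i hi => ?_, fun i hi => ?_, by simp [h3], by simp [h4], by simp, by simp, fun i hi => ?_⟩
    · by_cases c : i < d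
      · simp only [show i + 1 ≤ d by omega, show i ≤ d by omega, if_true]; exact h1 i c
      · have : i = d := by omega
        subst this
        simp only [le_refl, if_true, show ¬ i + 1 ≤ i by omega, if_false]
        omega
    · by_cases c : i < d
      · simp only [show i + 1 ≤ d by omega, show i ≤ d by omega, if_true]; exact h2 i c
      · have : i = d := by omega
        subst this
        simp only [le_refl, if_true, show ¬ i + 1 ≤ i by omega, if_false]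
        omega
    · by_cases c : i ≤ d
      · simp only [c, if_true]; exact h7 i c
      · simp only [c, if_false]; exact ⟨b1, b2, b3⟩

/-- A lazy walk from bottom to top is the image of a strict walk on the doubled path. -/
theorem exists_strict {a n : ℕ} {u : ℕ → ℕ} (hu : Lazy a u) (hun : ∀ i, i ≤ a → u i ≤ n)
    (hu0 : u 0 = 0) (hua : u a = n) :
    ∃ w μ : ℕ → ℕ, (∀ i, i < 2 * a + 1 → w (i + 1) = w i + 1 ∨ w i = w (i + 1) + 1) ∧
      (∀ i, i ≤ 2 * a + 1 → w i ≤ 2 * n + 1) ∧ w 0 = 0 ∧ w (2 * a + 1) = 2 * n + 1 ∧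
      Lazy (2 * a + 1) μ ∧ μ 0 = 0 ∧ μ (2 * a + 1) = a ∧
      ∀ i, i ≤ 2 * a + 1 → μ i ≤ a ∧ u (μ i) = w i / 2 := by
  refine ⟨fun i => if i % 2 = 0 then 2 * u (i / 2) else
      if i / 2 < a ∧ u (i / 2 + 1) < u (i / 2) then 2 * u (i / 2) - 1 else 2 * u (i / 2) + 1,
    fun i => if i % 2 = 1 ∧ i / 2 < a ∧ u (i / 2 + 1) < u (i / 2) then i / 2 + 1 else i / 2,
    fun i hi => ?_, fun i hi => ?_, by simp [hu0], ?_, fun i hi => ?_, by simp, ?_, fun i hi => ?_⟩
  · obtain ⟨s, rfl | rfl⟩ := Nat.even_or_odd' i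
    · have e1 : (2 * s + 1) / 2 = s := by omega
      have e2 : 2 * s / 2 = s := by omega
      simp only [e1, e2]
      split_ifs <;> omega
    · have e1 : (2 * s + 1) / 2 = s := by omega
      have e2 : (2 * s + 1 + 1) / 2 = s + 1 := by omega
      have := hu s (by omega)
      simp only [e1, e2]
      split_ifs <;> omega
  · have := hun (i / 2) (by omega)
    simp only
    split_ifs <;> omega
  · have e1 : (2 * a + 1) / 2 = a := by omega
    simp only [e1]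
    split_ifs <;> omega
  · simp only
    split_ifs <;> omega
  · have e1 : (2 * a + 1) / 2 = a := by omega
    simp only [e1]
    split_ifs <;> omega
  · have := hu (i / 2)
    simp only
    split_ifs <;> omega

theorem climb {a b n : ℕ} {u v : ℕ → ℕ} (hu : Lazy a u) (hv : Lazy b v)
    (hun : ∀ i, i ≤ a → u i ≤ n) (hvn : ∀ i, i ≤ b → v i ≤ n)
    (hu0 : u 0 = 0) (hv0 : v 0 = 0) (hua : u a = n) (hvb : v b = n) :
    ∃ (d : ℕ) (p q : ℕ → ℕ), Epi d a p ∧ Epi d b q ∧ ∀ i, i ≤ d → u (p i) = v (q i) := by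
  obtain ⟨w, μ, a1, a2, a3, a4, a5, a6, a7, a8⟩ := exists_strict hu hun hu0 hua
  obtain ⟨w', μ', b1, b2, b3, b4, b5, b6, b7, b8⟩ := exists_strict hv hvn hv0 hvb
  obtain ⟨d, p, q, h1, h2, h3, h4, h5, h6, h7⟩ := walk_of_reach (by rw [a3, b3])
    (climb_strict (by omega) a1 b1 a2 b2 a3 b3 a4 b4)
  simp only at h5 h6
  refine ⟨d, fun i => μ (p i), fun i => μ' (q i), ?_, ?_, fun i hi => ?_⟩
  · exact epi_of_lazy (a5.comp h1 fun i hi => (h7 i hi).1) (fun i hi => (a8 _ (h7 i hi).1).1)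
      (Nat.zero_le d) le_rfl (by rw [h3, a6]) (by rw [h5, a7])
  · exact epi_of_lazy (b5.comp h2 fun i hi => (h7 i hi).2.1) (fun i hi => (b8 _ (h7 i hi).2.1).1)
      (Nat.zero_le d) le_rfl (by rw [h4, b6]) (by rw [h6, b7])
  · rw [(a8 _ (h7 i hi).1).2, (b8 _ (h7 i hi).2.1).2, (h7 i hi).2.2]

theorem exists_tour (m s t : ℕ) (hs : s ≤ m) (ht : t ≤ m) :
    ∃ (d : ℕ) (w : ℕ → ℕ), Epi d m w ∧ w 0 = s ∧ w d = t := by
  refine ⟨s + m + (m - t), fun i => if i ≤ s then s - i else if i ≤ s + m then i - s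
    else m - (i - (s + m)), ?_, by simp, ?_⟩
  · refine epi_of_lazy (fun i hi => ?_) (fun i hi => ?_) (a := s) (b := s + m) (by omega) (by omega)
      (by simp) ?_
    · split_ifs <;> omega
    · split_ifs <;> omega
    · split_ifs <;> omega
  · simp only; split_ifs <;> omega

/-- Amalgamation of epimorphisms of paths. -/
theorem amalgam {a b n : ℕ} {f g : ℕ → ℕ} (hf : Epi a n f) (hg : Epi b n g) :
    ∃ (d : ℕ) (p q : ℕ → ℕ), Epi d a p ∧ Epi d b q ∧ ∀ i, i ≤ d → f (p i) = g (q i) := by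
  obtain ⟨s, hs, hs0⟩ := hf.surj 0 (Nat.zero_le n)
  obtain ⟨t, ht, htn⟩ := hf.surj n le_rfl
  obtain ⟨s', hs', hs0'⟩ := hg.surj 0 (Nat.zero_le n)
  obtain ⟨t', ht', htn'⟩ := hg.surj n le_rfl
  obtain ⟨a', w, h1, h2, h3⟩ := exists_tour a s t hs ht
  obtain ⟨b', w', h1', h2', h3'⟩ := exists_tour b s' t' hs' ht'
  obtain ⟨d, p, q, h4, h5, h6⟩ := climb (hf.comp h1).lazy (hg.comp h1').lazy (hf.comp h1).le
    (hg.comp h1').le (by simp only [h2, hs0]) (by simp only [h2', hs0']) (by simp only [h3, htn])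
    (by simp only [h3', htn'])
  exact ⟨d, fun i => w (p i), fun i => w' (q i), h1.comp h4, h1'.comp h5, h6⟩

end Pool.Agent.Lib.MP_11d477_gt
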